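import Mathlib

/-!
# Real pencils of polynomials and their Wronskians: algebra

Pencils are given by pairs of coefficient vectors `u, w : Fin n → ℝ`; `W u w s` is the coefficient
of `t ^ s` in `u w' - u' w`.
-/

set_option autoImplicit false

namespace Pool.Agent.H93W

open Finset

/-- coefficient vectors of polynomials of degree `< n` -/
abbrev Vec (n : ℕ) := Fin n → ℝ

/-- the coefficient of `t ^ s` in the Wronskian `u w' - u' w` -/
noncomputable def W {n : ℕ} (u w : Vec n) (s : ℕ) : ℝ :=
  ∑ i : Fin n, ∑ j : Fin n,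
    if (i : ℕ) + (j : ℕ) = s + 1 then (((j : ℕ) : ℝ) - ((i : ℕ) : ℝ)) * (u i * w j) else 0

variable {n : ℕ}

lemma W_add_left (u u' w : Vec n) (s : ℕ) : W (u + u') w s = W u w s + W u' w s := by
  simp only [W, ← Finset.sum_add_distrib]
  refine Finset.sum_congr rfl fun i _ => Finset.sum_congr rfl fun j _ => ?_
  split_ifs
  · simp only [Pi.add_apply]; ring
  · simp

lemma W_smul_left (c : ℝ) (u w : Vec n) (s : ℕ) : W (c • u) w s = c * W u w s := by
  simp only [W, Finset.mul_sum]
  refine Finset.sum_congr rfl fun i _ => Finset.sum_congr rfl fun j _ => ?_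
  split_ifs
  · simp only [Pi.smul_apply, smul_eq_mul]; ring
  · simp

lemma W_antisymm (u w : Vec n) (s : ℕ) : W w u s = - W u w s := by
  simp only [W, ← Finset.sum_neg_distrib]
  rw [Finset.sum_comm]
  refine Finset.sum_congr rfl fun i _ => Finset.sum_congr rfl fun j _ => ?_
  have : ((j : ℕ) + (i : ℕ) = s + 1) ↔ ((i : ℕ) + (j : ℕ) = s + 1) := by omega
  simp only [this]
  split_ifs
  · ring
  · simp

lemma W_add_right (u w w' : Vec n) (s : ℕ) : W u (w + w') s = W u w s + W u w' s := by
  rw [W_antisymm, W_add_left, W_antisymm u w, W_antisymm u w']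
  ring

lemma W_smul_right (c : ℝ) (u w : Vec n) (s : ℕ) : W u (c • w) s = c * W u w s := by
  rw [W_antisymm, W_smul_left, W_antisymm u w]; ring

lemma W_self (u : Vec n) (s : ℕ) : W u u s = 0 := by
  have := W_antisymm u u s
  linarith

lemma W_zero_left (w : Vec n) (s : ℕ) : W (0 : Vec n) w s = 0 := by
  simp [W]

lemma W_zero_right (u : Vec n) (s : ℕ) : W u (0 : Vec n) s = 0 := by
  simp [W]

/-- change of basis -/
lemma W_comb (a b c d : ℝ) (u w : Vec n) (s : ℕ) :
    W (a • u + b • w) (c • u + d • w) s = (a * d - b * c) * W u w s := by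
  rw [W_add_left, W_add_right, W_add_right, W_smul_left, W_smul_left, W_smul_left, W_smul_left,
    W_smul_right, W_smul_right, W_smul_right, W_smul_right, W_self, W_self, W_antisymm u w]
  ring

/-- Plücker coordinates -/
def pl (u w : Vec n) (i j : Fin n) : ℝ := u i * w j - u j * w i

lemma pl_antisymm (u w : Vec n) (i j : Fin n) : pl u w j i = - pl u w i j := by
  simp only [pl]; ring

lemma pl_self (u w : Vec n) (i : Fin n) : pl u w i i = 0 := by
  simp only [pl]; ring

lemma pl_comb (a b c d : ℝ) (u w : Vec n) (i j : Fin n) :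
    pl (a • u + b • w) (c • u + d • w) i j = (a * d - b * c) * pl u w i j := by
  simp only [pl, Pi.add_apply, Pi.smul_apply, smul_eq_mul]; ring

/-- highest coefficient of the Wronskian -/
lemma W_top (u w : Vec n) (a b : Fin n) (hu : ∀ i, a < i → u i = 0) (hw : ∀ j, b < j → w j = 0)
    (s : ℕ) (hs : s + 1 = (a : ℕ) + b) :
    W u w s = (((b : ℕ) : ℝ) - ((a : ℕ) : ℝ)) * (u a * w b) := by
  unfold W
  rw [Finset.sum_eq_single a]
  · rw [Finset.sum_eq_single b]
    · rw [if_pos (by omega)]
    · intro j _ hj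
      rw [if_neg]
      intro h
      apply hj
      apply Fin.ext
      omega
    · simp
  · intro i _ hi
    apply Finset.sum_eq_zero
    intro j _
    split_ifs with h
    · rcases lt_trichotomy i a with h1 | h1 | h1
      · have : b < j := by
          rw [Fin.lt_def] at h1 ⊢
          omega
        rw [hw j this]; ring
      · exact absurd h1 hi
      · rw [hu i h1]; ring
    · rfl
  · simp

lemma W_high (u w : Vec n) (a b : Fin n) (hu : ∀ i, a < i → u i = 0) (hw : ∀ j, b < j → w j = 0)
    (s : ℕ) (hs : (a : ℕ) + b < s + 1) : W u w s = 0 := by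
  unfold W
  apply Finset.sum_eq_zero
  intro i _
  apply Finset.sum_eq_zero
  intro j _
  split_ifs with h
  · by_cases h1 : a < i
    · rw [hu i h1]; ring
    · have : b < j := by
        rw [Fin.lt_def] at h1 ⊢
        omega
      rw [hw j this]; ring
  · rfl

/-- degree bound in terms of natural numbers -/
lemma W_high' (u w : Vec n) (a b : ℕ) (hu : ∀ i : Fin n, a < i → u i = 0)
    (hw : ∀ j : Fin n, b < j → w j = 0)
    (s : ℕ) (hs : a + b < s + 1) : W u w s = 0 := by
  unfold W
  apply Finset.sum_eq_zero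
  intro i _
  apply Finset.sum_eq_zero
  intro j _
  split_ifs with h
  · by_cases h1 : a < i
    · rw [hu i h1]; ring
    · have : b < j := by omega
      rw [hw j this]; ring
  · rfl

/-- the basis of the pencil normalised at the columns `a`, `b` -/
noncomputable def chart (a b : Fin n) (v : Vec n × Vec n) : Vec n × Vec n :=
  (fun i => pl v.1 v.2 i b / pl v.1 v.2 a b, fun j => pl v.1 v.2 a j / pl v.1 v.2 a b)

lemma chart_fst (a b : Fin n) (u w : Vec n) :
    (chart a b (u, w)).1 = (w b / pl u w a b) • u + (- u b / pl u w a b) • w := by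
  ext i
  simp only [chart, pl, Pi.add_apply, Pi.smul_apply, smul_eq_mul]
  ring

lemma chart_snd (a b : Fin n) (u w : Vec n) :
    (chart a b (u, w)).2 = (- w a / pl u w a b) • u + (u a / pl u w a b) • w := by
  ext i
  simp only [chart, pl, Pi.add_apply, Pi.smul_apply, smul_eq_mul]
  ring

lemma W_chart (a b : Fin n) (u w : Vec n) (h : pl u w a b ≠ 0) (s : ℕ) :
    W (chart a b (u, w)).1 (chart a b (u, w)).2 s = W u w s / pl u w a b := by
  rw [chart_fst, chart_snd, W_comb]
  have : w b / pl u w a b * (u a / pl u w a b) - -u b / pl u w a b * (-w a / pl u w a b)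
      = 1 / pl u w a b := by
    have h2 : w b * u a - u b * w a = pl u w a b := by simp only [pl]; ring
    field_simp
    linarith
  rw [this]; ring

lemma pl_chart (a b : Fin n) (u w : Vec n) (h : pl u w a b ≠ 0) (i j : Fin n) :
    pl (chart a b (u, w)).1 (chart a b (u, w)).2 i j = pl u w i j / pl u w a b := by
  rw [chart_fst, chart_snd, pl_comb]
  have : w b / pl u w a b * (u a / pl u w a b) - -u b / pl u w a b * (-w a / pl u w a b)
      = 1 / pl u w a b := by
    have h2 : w b * u a - u b * w a = pl u w a b := by simp only [pl]; ring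
    field_simp
    linarith
  rw [this]; ring

lemma chart_a (a b : Fin n) (u w : Vec n) (h : pl u w a b ≠ 0) :
    (chart a b (u, w)).1 a = 1 := by
  simp [chart, div_self h]

lemma chart_b (a b : Fin n) (u w : Vec n) :
    (chart a b (u, w)).1 b = 0 := by
  simp [chart, pl_self]

lemma chart_a' (a b : Fin n) (u w : Vec n) :
    (chart a b (u, w)).2 a = 0 := by
  simp [chart, pl_self]

lemma chart_b' (a b : Fin n) (u w : Vec n) (h : pl u w a b ≠ 0) :
    (chart a b (u, w)).2 b = 1 := by
  simp [chart, div_self h]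

/-- the first vector in terms of the normalised basis -/
lemma chart_inv_fst (a b : Fin n) (u w : Vec n) (h : pl u w a b ≠ 0) :
    u = u a • (chart a b (u, w)).1 + u b • (chart a b (u, w)).2 := by
  ext i
  simp only [chart, Pi.add_apply, Pi.smul_apply, smul_eq_mul]
  field_simp
  simp only [pl]; ring

lemma chart_inv_snd (a b : Fin n) (u w : Vec n) (h : pl u w a b ≠ 0) :
    w = w a • (chart a b (u, w)).1 + w b • (chart a b (u, w)).2 := by
  ext i
  simp only [chart, Pi.add_apply, Pi.smul_apply, smul_eq_mul]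
  field_simp
  simp only [pl]; ring

lemma chart_of_normal (a b : Fin n) (u w : Vec n) (h1 : u a = 1) (h2 : u b = 0) (h3 : w a = 0)
    (h4 : w b = 1) : chart a b (u, w) = (u, w) := by
  have hp : pl u w a b = 1 := by simp [pl, h1, h2, h3, h4]
  refine Prod.ext ?_ ?_
  · rw [chart_fst, hp, h2, h4]; simp
  · rw [chart_snd, hp, h1, h3]; simp

lemma chart_chart (a b c d : Fin n) (u w : Vec n) (h : pl u w a b ≠ 0) :
    chart c d (chart a b (u, w)) = chart c d (u, w) := by
  have key : ∀ i j k l : Fin n, pl (chart a b (u, w)).1 (chart a b (u, w)).2 i j /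
      pl (chart a b (u, w)).1 (chart a b (u, w)).2 k l = pl u w i j / pl u w k l := by
    intro i j k l
    rw [pl_chart a b u w h, pl_chart a b u w h]
    by_cases h2 : pl u w k l = 0
    · simp [h2]
    · field_simp
  refine Prod.ext ?_ ?_
  · ext i
    show pl (chart a b (u, w)).1 (chart a b (u, w)).2 i d /
      pl (chart a b (u, w)).1 (chart a b (u, w)).2 c d = pl u w i d / pl u w c d
    exact key _ _ _ _
  · ext i
    show pl (chart a b (u, w)).1 (chart a b (u, w)).2 c i /
      pl (chart a b (u, w)).1 (chart a b (u, w)).2 c d = pl u w c i / pl u w c d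
    exact key _ _ _ _

/-- `v` is the reduced echelon basis of a pencil with degrees `a < b` -/
def Cell (a b : Fin n) (v : Vec n × Vec n) : Prop :=
  v.1 a = 1 ∧ (∀ i, a < i → v.1 i = 0) ∧ v.2 b = 1 ∧ (∀ j, b < j → v.2 j = 0) ∧ v.2 a = 0

lemma Cell.pl_ne {a b : Fin n} (hab : a < b) {v : Vec n × Vec n} (h : Cell a b v) :
    pl v.1 v.2 a b = 1 := by
  obtain ⟨h1, h2, h3, h4, h5⟩ := h
  simp [pl, h1, h2 b hab, h3]

lemma Cell.chart_eq {a b : Fin n} (hab : a < b) {v : Vec n × Vec n} (h : Cell a b v) :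
    chart a b v = v := by
  obtain ⟨h1, h2, h3, h4, h5⟩ := h
  exact chart_of_normal a b v.1 v.2 h1 (h2 b hab) h5 h3

/-- reduced echelon form exists -/
lemma exists_cell (u w : Vec n) (h : ∃ i j, pl u w i j ≠ 0) :
    ∃ a b : Fin n, a < b ∧ pl u w a b ≠ 0 ∧ Cell a b (chart a b (u, w)) := by
  classical
  let S : Finset (Fin n × Fin n) := Finset.univ.filter fun x => x.1 < x.2 ∧ pl u w x.1 x.2 ≠ 0
  have hS : S.Nonempty := by
    obtain ⟨i, j, hij⟩ := h
    rcases lt_trichotomy i j with h1 | h1 | h1
    · exact ⟨(i, j), by simp [S, h1, hij]⟩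
    · subst h1
      exact absurd (pl_self u w i) hij
    · refine ⟨(j, i), ?_⟩
      have : pl u w j i ≠ 0 := by
        rw [pl_antisymm]
        simpa using hij
      simp [S, h1, this]
  obtain ⟨⟨a, b⟩, hmem, hmax⟩ := Finset.exists_max_image S (fun x => (x.1 : ℕ) + (x.2 : ℕ)) hS
  simp only [S, Finset.mem_filter, Finset.mem_univ, true_and] at hmem
  obtain ⟨hab, hne⟩ := hmem
  have hzero : ∀ i j : Fin n, (a : ℕ) + b < (i : ℕ) + j → pl u w i j = 0 := by
    intro i j hij
    by_contra hc
    rcases lt_trichotomy i j with h1 | h1 | h1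
    · have := hmax (i, j) (by simp [S, h1, hc])
      simp only at this
      omega
    · subst h1
      exact hc (pl_self u w i)
    · have hc' : pl u w j i ≠ 0 := by
        rw [pl_antisymm]
        simpa using hc
      have := hmax (j, i) (by simp [S, h1, hc'])
      simp only at this
      omega
  refine ⟨a, b, hab, hne, chart_a a b u w hne, ?_, chart_b' a b u w hne, ?_, chart_a' a b u w⟩
  · intro i hi
    simp only [chart]
    rw [hzero i b, zero_div]
    rw [Fin.lt_def] at hi
    omega
  · intro j hj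
    simp only [chart]
    rw [hzero a j, zero_div]
    rw [Fin.lt_def] at hj
    omega

/-- Plücker coordinates of a pencil with degrees `a' < b'` -/
lemma pl_zero_of_supp (u w : Vec n) (a' b' : Fin n) (hab : a' < b')
    (hu : ∀ i, a' < i → u i = 0) (hw : ∀ j, b' < j → w j = 0) (i j : Fin n) (hij : i < j)
    (h : a' < i ∨ b' < j) : pl u w i j = 0 := by
  simp only [pl]
  rcases h with h | h
  · rw [hu i h, hu j (h.trans hij)]; ring
  · rw [hw j h, hu j (hab.trans h)]; ring

/-- the pencils of degrees `a < b` with Wronskian proportional to `F` -/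
def Sol (F : ℕ → ℝ) (a b : Fin n) : Set (Vec n × Vec n) :=
  {v | Cell a b v ∧ ∃ c : ℝ, c ≠ 0 ∧ ∀ s, W v.1 v.2 s = c * F s}

/-- `F` is the coefficient function of a polynomial of degree `D` with positive leading
coefficient and without term of degree `D - 1` -/
structure Good (F : ℕ → ℝ) (D : ℕ) : Prop where
  pos : 0 < F D
  zero : ∀ s, D < s → F s = 0
  sub : ∀ s, s + 1 = D → F s = 0

lemma Sol.sum_eq {F : ℕ → ℝ} {D : ℕ} (hF : Good F D) {a b : Fin n} (hab : a < b)
    {v : Vec n × Vec n} (h : v ∈ Sol F a b) : (a : ℕ) + b = D + 1 := by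
  obtain ⟨⟨h1, h2, h3, h4, h5⟩, c, hc, hW⟩ := h
  have hab' : (a : ℕ) < b := hab
  have e1 := W_top v.1 v.2 a b h2 h4 ((a : ℕ) + b - 1) (by omega)
  rw [h1, h3, hW] at e1
  have hne : F ((a : ℕ) + b - 1) ≠ 0 := by
    intro h0
    rw [h0] at e1
    have : ((a : ℕ) : ℝ) < ((b : ℕ) : ℝ) := by exact_mod_cast hab'
    linarith
  have hle : (a : ℕ) + b - 1 ≤ D := by
    by_contra hlt
    exact hne (hF.zero _ (by omega))
  have hge : D + 1 ≤ (a : ℕ) + b := by
    by_contra hlt
    have e2 := W_high v.1 v.2 a b h2 h4 D (by omega)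
    rw [hW] at e2
    rcases mul_eq_zero.1 e2 with h | h
    · exact hc h
    · exact hF.pos.ne' h
  omega

lemma Sol.const_eq {F : ℕ → ℝ} {D : ℕ} (hF : Good F D) {a b : Fin n} (hab : a < b)
    {v : Vec n × Vec n} (h : v ∈ Sol F a b) (s : ℕ) :
    W v.1 v.2 s = ((((b : ℕ) : ℝ) - ((a : ℕ) : ℝ)) / F D) * F s := by
  have hs := Sol.sum_eq hF hab h
  obtain ⟨⟨h1, h2, h3, h4, h5⟩, c, hc, hW⟩ := h
  have e1 := W_top v.1 v.2 a b h2 h4 D (by omega)
  rw [h1, h3, hW] at e1
  rw [hW]
  have : c = (((b : ℕ) : ℝ) - ((a : ℕ) : ℝ)) / F D := by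
    rw [eq_div_iff hF.pos.ne']
    linarith
  rw [this]

/-- nondegeneracy of a pencil with degrees `a < b`, with basis `(u, w)` adapted to the degrees -/
def ND (a b : Fin n) (v : Vec n × Vec n) : Prop :=
  ∀ (x y : Vec n) (c : ℝ), (∀ i, a < i → x i = 0) → (∀ j, b < j → y j = 0) →
    (∀ s, W x v.2 s + W v.1 y s = c * W v.1 v.2 s) →
    (∃ α : ℝ, x = α • v.1) ∧ (∃ β γ : ℝ, y = β • v.1 + γ • v.2)

end Pool.Agent.H93W
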