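import Mathlib

/-!
# The real Wronski map: definitions

* `wr b` is the Wronskian determinant of the tuple `b` of real polynomials;
* `realFibre k n f` is the set of the real points of the fibre of the Wronski map of
  `Gr(k, n)` over `f`;
* `DistinctRoots k n f` says that `f` has `k (n - k)` distinct roots on the Riemann sphere;
* `sigma k n` is the topological degree of the real Wronski map.
-/

set_option autoImplicit false

namespace Pool.Agent.H93W

open Polynomial

/-- The Wronskian determinant `det (f_j^{(i)})` of real polynomials `f_0, ..., f_{k-1}`. -/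
noncomputable def wr {k : ℕ} (b : Fin k → ℝ[X]) : ℝ[X] :=
  Matrix.det (Matrix.of fun i j : Fin k => derivative^[(i : ℕ)] (b j))

/-- The real points of the fibre of the Wronski map over `f`: the `k`-dimensional subspaces `V` of
the space of real polynomials of degree less than `n` which have a basis whose Wronskian is a
nonzero constant multiple of `f`. -/
def realFibre (k n : ℕ) (f : ℝ[X]) : Set (Submodule ℝ ℝ[X]) :=
  {V | V ≤ degreeLT ℝ n ∧ Module.finrank ℝ V = k ∧
    ∃ b : Module.Basis (Fin k) ℝ V, ∃ c : ℝ, c ≠ 0 ∧ wr (fun j => (b j : ℝ[X])) = C c * f}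

/-- The real polynomial `f` of degree at most `k (n - k)` has `k (n - k)` pairwise distinct roots
on the Riemann sphere, `∞` being counted `k (n - k) - deg f` times. -/
def DistinctRoots (k n : ℕ) (f : ℝ[X]) : Prop :=
  f ≠ 0 ∧ f.natDegree ≤ k * (n - k) ∧ k * (n - k) ≤ f.natDegree + 1 ∧
    (f.map (algebraMap ℝ ℂ)).roots.Nodup

/-- The formula for `σ_{k,n}`, `n` odd and `k ≤ n - k`. -/
def sigmaFormula (k n : ℕ) : ℚ :=
  ((∏ i ∈ Finset.Icc 1 (k - 1), (i.factorial : ℚ)) *
    (∏ j ∈ Finset.Icc (n - 2 * k + 1) (n - k - 1), (j.factorial : ℚ)) *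
    ((k * (n - k) / 2).factorial : ℚ)) /
  ((∏ i ∈ Finset.Icc 1 (k - 1), ((n - 2 * k + 2 * i).factorial : ℚ)) *
    (∏ i ∈ Finset.Icc 1 k, (((n - 2 * k + 2 * i - 1) / 2).factorial : ℚ)))

/-- The topological degree `σ_{k,n}` of the real Wronski map. -/
def sigma (k n : ℕ) : ℚ :=
  if Even n then 0 else if k ≤ n - k then sigmaFormula k n else sigmaFormula (n - k) n

/-- The bound `σ_{k,n}` is sharp: it is the number of the real points of the fibre over some real
polynomial with distinct roots. -/
def Sharp (k n : ℕ) : Prop :=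
  ∃ f : ℝ[X], DistinctRoots k n f ∧ (realFibre k n f).Finite ∧
    ((realFibre k n f).ncard : ℚ) = sigma k n

end Pool.Agent.H93W
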