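import Mathlib
import Pool.Agent.H93W.Alg

/-!
# The implicit function theorem for pencils with a prescribed Wronskian
-/

set_option autoImplicit false

namespace Pool.Agent.H93W

open Finset Filter Topology

variable {n : ℕ}

/-- the Wronskian as a bilinear map, first `m` coefficients -/
noncomputable def Wlin (n m : ℕ) : Vec n →ₗ[ℝ] Vec n →ₗ[ℝ] (Fin m → ℝ) :=
  LinearMap.mk₂ ℝ (fun u w (s : Fin m) => W u w s)
    (fun u u' w => by ext s; exact W_add_left u u' w s)
    (fun c u w => by ext s; exact W_smul_left c u w s)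
    (fun u w w' => by ext s; exact W_add_right u w w' s)
    (fun c u w => by ext s; exact W_smul_right c u w s)

/-- the Wronskian as a continuous bilinear map -/
noncomputable def Wm (n m : ℕ) : Vec n →L[ℝ] Vec n →L[ℝ] (Fin m → ℝ) :=
  (Wlin n m).toContinuousBilinearMap

lemma Wm_apply (m : ℕ) (u w : Vec n) (s : Fin m) : Wm n m u w s = W u w s := rfl

/-- extension by zero -/
noncomputable def extL (A : Finset (Fin n)) : (A → ℝ) →ₗ[ℝ] Vec n where
  toFun x i := if h : i ∈ A then x ⟨i, h⟩ else 0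
  map_add' x y := by
    ext i
    by_cases h : i ∈ A <;> simp [h]
  map_smul' c x := by
    ext i
    by_cases h : i ∈ A <;> simp [h]

/-- extension by zero, continuous -/
noncomputable def extC (A : Finset (Fin n)) : (A → ℝ) →L[ℝ] Vec n :=
  LinearMap.toContinuousLinearMap (extL A)

lemma extC_apply (A : Finset (Fin n)) (x : A → ℝ) (i : Fin n) :
    extC A x i = if h : i ∈ A then x ⟨i, h⟩ else 0 := rfl

/-- restriction -/
def res (A : Finset (Fin n)) (x : Vec n) : A → ℝ := fun i => x i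

lemma extC_res (A : Finset (Fin n)) (x : Vec n) (hx : ∀ i, i ∉ A → x i = 0) :
    extC A (res A x) = x := by
  ext i
  rw [extC_apply]
  by_cases h : i ∈ A
  · simp [h, res]
  · simp [h, hx i h]

lemma res_extC (A : Finset (Fin n)) (x : A → ℝ) : res A (extC A x) = x := by
  ext i
  simp [res, extC_apply]

lemma extC_supp (A : Finset (Fin n)) (x : A → ℝ) (i : Fin n) (hi : i ∉ A) : extC A x i = 0 := by
  rw [extC_apply]; simp [hi]

lemma continuous_res (A : Finset (Fin n)) : Continuous (res A) := by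
  unfold res
  fun_prop

/-- unknowns -/
abbrev EE (A B : Finset (Fin n)) := (A → ℝ) × (B → ℝ) × ℝ

/-- the system -/
noncomputable def Psi (A B : Finset (Fin n)) (m : ℕ) (q p : Vec n) (c0 : ℝ) (F G : Fin m → ℝ)
    (z : ℝ × EE A B) : Fin m → ℝ :=
  Wm n m (q + extC A z.2.1) (p + extC B z.2.2.1) - (c0 + z.2.2.2) • (F + z.1 • G)

/-- the partial derivative of the system -/
noncomputable def DPsi (A B : Finset (Fin n)) (m : ℕ) (q p : Vec n) (F G : Fin m → ℝ)
    (z : ℝ × EE A B) : EE A B →L[ℝ] (Fin m → ℝ) :=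
  (((Wm n m).flip (p + extC B z.2.2.1)).comp (extC A)).comp (ContinuousLinearMap.fst ℝ _ _)
  + (((Wm n m) (q + extC A z.2.1)).comp (extC B)).comp
      ((ContinuousLinearMap.fst ℝ _ _).comp (ContinuousLinearMap.snd ℝ _ _))
  - ((ContinuousLinearMap.snd ℝ _ _).comp (ContinuousLinearMap.snd ℝ _ _)).smulRight (F + z.1 • G)

lemma DPsi_apply (A B : Finset (Fin n)) (m : ℕ) (q p : Vec n) (F G : Fin m → ℝ)
    (z : ℝ × EE A B) (X : EE A B) :
    DPsi A B m q p F G z X = Wm n m (extC A X.1) (p + extC B z.2.2.1)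
      + Wm n m (q + extC A z.2.1) (extC B X.2.1) - X.2.2 • (F + z.1 • G) := by
  simp [DPsi]

lemma continuous_DPsi (A B : Finset (Fin n)) (m : ℕ) (q p : Vec n) (F G : Fin m → ℝ) :
    Continuous (DPsi A B m q p F G) := by
  unfold DPsi
  fun_prop

lemma hasStrict_Psi (A B : Finset (Fin n)) (m : ℕ) (q p : Vec n) (c0 : ℝ) (F G : Fin m → ℝ)
    (z : ℝ × EE A B) :
    ∃ L : ℝ × EE A B →L[ℝ] (Fin m → ℝ), HasStrictFDerivAt (Psi A B m q p c0 F G) L z ∧
      L ∘L ContinuousLinearMap.inr ℝ ℝ (EE A B) = DPsi A B m q p F G z := by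
  have h1 : HasStrictFDerivAt (fun z : ℝ × EE A B => q + extC A z.2.1)
      ((extC A).comp ((ContinuousLinearMap.fst ℝ _ _).comp (ContinuousLinearMap.snd ℝ _ _))) z := by
    exact (ContinuousLinearMap.hasStrictFDerivAt
      ((extC A).comp ((ContinuousLinearMap.fst ℝ _ _).comp
        (ContinuousLinearMap.snd ℝ ℝ (EE A B))))).const_add q
  have h2 : HasStrictFDerivAt (fun z : ℝ × EE A B => p + extC B z.2.2.1)
      ((extC B).comp ((ContinuousLinearMap.fst ℝ _ _).comp
        ((ContinuousLinearMap.snd ℝ _ _).comp (ContinuousLinearMap.snd ℝ _ _)))) z := by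
    exact (ContinuousLinearMap.hasStrictFDerivAt
      ((extC B).comp ((ContinuousLinearMap.fst ℝ _ _).comp
        ((ContinuousLinearMap.snd ℝ _ _).comp (ContinuousLinearMap.snd ℝ ℝ (EE A B)))))).const_add p
  have h3 := (Wm n m).hasStrictFDerivAt_of_bilinear h1 h2
  have h4 : HasStrictFDerivAt (fun z : ℝ × EE A B => c0 + z.2.2.2)
      ((ContinuousLinearMap.snd ℝ _ _).comp
        ((ContinuousLinearMap.snd ℝ _ _).comp (ContinuousLinearMap.snd ℝ _ _))) z := by
    exact (ContinuousLinearMap.hasStrictFDerivAt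
      ((ContinuousLinearMap.snd ℝ _ _).comp
        ((ContinuousLinearMap.snd ℝ _ _).comp (ContinuousLinearMap.snd ℝ ℝ (EE A B))))).const_add c0
  have h5 : HasStrictFDerivAt (fun z : ℝ × EE A B => F + z.1 • G)
      ((ContinuousLinearMap.fst ℝ ℝ (EE A B)).smulRight G) z := by
    exact (ContinuousLinearMap.hasStrictFDerivAt
      ((ContinuousLinearMap.fst ℝ ℝ (EE A B)).smulRight G)).const_add F
  have h6 := h4.smul h5
  refine ⟨_, h3.sub h6, ?_⟩
  refine ContinuousLinearMap.ext fun X => ?_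
  rw [DPsi_apply]
  simp
  abel

/-- support condition -/
def Supp (A : Finset (Fin n)) (x : Vec n) : Prop := ∀ i, i ∉ A → x i = 0

lemma Supp.zero (A : Finset (Fin n)) : Supp A (0 : Vec n) := fun _ _ => rfl

/-- An injective continuous linear map between spaces of the same finite dimension is
invertible. -/
lemma isInvertible_of_injective {E Y : Type*} [NormedAddCommGroup E] [NormedSpace ℝ E]
    [NormedAddCommGroup Y] [NormedSpace ℝ Y] [FiniteDimensional ℝ E] [FiniteDimensional ℝ Y]
    (h : Module.finrank ℝ E = Module.finrank ℝ Y) (L : E →L[ℝ] Y)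
    (hL : Function.Injective L) : L.IsInvertible := by
  refine ⟨(LinearEquiv.ofInjectiveOfFinrankEq (L : E →ₗ[ℝ] Y) hL h).toContinuousLinearEquiv, ?_⟩
  ext x
  rfl

/-- Being injective is an open condition. -/
lemma eventually_injective {E Y : Type*} [NormedAddCommGroup E] [NormedSpace ℝ E]
    [NormedAddCommGroup Y] [NormedSpace ℝ Y] [FiniteDimensional ℝ E] [FiniteDimensional ℝ Y]
    (L : E →L[ℝ] Y) (hL : L.IsInvertible) :
    ∀ᶠ (L' : E →L[ℝ] Y) in 𝓝 L, Function.Injective L' := by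
  have : CompleteSpace E := FiniteDimensional.complete ℝ E
  have h1 : Set.range (ContinuousLinearEquiv.toContinuousLinearMap : (E ≃L[ℝ] Y) → E →L[ℝ] Y)
      ∈ 𝓝 L := by
    apply ContinuousLinearEquiv.isOpen.mem_nhds
    obtain ⟨e, he⟩ := hL
    exact ⟨e, he⟩
  filter_upwards [h1] with L' hL'
  obtain ⟨e, rfl⟩ := hL'
  exact e.injective

theorem branch (A B : Finset (Fin n)) (m : ℕ) (hcard : A.card + B.card + 1 = m)
    (q p : Vec n) (c0 : ℝ) (F G : ℕ → ℝ) (h0 : ∀ s < m, W q p s = c0 * F s)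
    (hinj : ∀ (x y : Vec n) (κ : ℝ), Supp A x → Supp B y →
      (∀ s < m, W x p s + W q y s = κ * F s) → x = 0 ∧ y = 0 ∧ κ = 0) :
    ∃ ψ : ℝ → Vec n × Vec n × ℝ,
      Tendsto ψ (𝓝 0) (𝓝 (q, p, c0)) ∧
      (∀ᶠ ε in 𝓝 (0 : ℝ), Supp A ((ψ ε).1 - q) ∧ Supp B ((ψ ε).2.1 - p) ∧
        ∀ s < m, W (ψ ε).1 (ψ ε).2.1 s = (ψ ε).2.2 * (F s + ε * G s)) ∧
      (∀ᶠ z in 𝓝 ((0 : ℝ), (q, p, c0)), Supp A (z.2.1 - q) → Supp B (z.2.2.1 - p) →
        (∀ s < m, W z.2.1 z.2.2.1 s = z.2.2.2 * (F s + z.1 * G s)) → z.2 = ψ z.1) ∧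
      (∀ᶠ ε in 𝓝 (0 : ℝ), ∀ (x y : Vec n) (κ : ℝ), Supp A x → Supp B y →
        (∀ s < m, W x (ψ ε).2.1 s + W (ψ ε).1 y s = κ * (F s + ε * G s)) →
          x = 0 ∧ y = 0 ∧ κ = 0) := by
  classical
  set Fm : Fin m → ℝ := fun s => F s with hFm
  set Gm : Fin m → ℝ := fun s => G s with hGm
  obtain ⟨L, hL, hL2⟩ := hasStrict_Psi A B m q p c0 Fm Gm ((0 : ℝ), ((0, 0, 0) : EE A B))
  have hfin : Module.finrank ℝ (EE A B) = Module.finrank ℝ (Fin m → ℝ) := by
    rw [Module.finrank_prod, Module.finrank_prod, Module.finrank_self,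
      Module.finrank_fintype_fun_eq_card, Module.finrank_fintype_fun_eq_card,
      Module.finrank_fintype_fun_eq_card, Fintype.card_fin, Fintype.card_coe, Fintype.card_coe]
    omega
  have hDinj : Function.Injective (DPsi A B m q p Fm Gm ((0 : ℝ), ((0, 0, 0) : EE A B))) := by
    rw [injective_iff_map_eq_zero]
    intro X hX
    rw [DPsi_apply] at hX
    have h1 := hinj (extC A X.1) (extC B X.2.1) X.2.2 (extC_supp A X.1) (extC_supp B X.2.1) ?_
    · obtain ⟨ha, hb, hc⟩ := h1
      have e1 : X.1 = 0 := by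
        rw [← res_extC A X.1, ha]; rfl
      have e2 : X.2.1 = 0 := by
        rw [← res_extC B X.2.1, hb]; rfl
      exact Prod.ext e1 (Prod.ext e2 hc)
    · intro s hs
      have := congrFun hX ⟨s, hs⟩
      simp only [map_zero, add_zero, zero_smul, Pi.sub_apply, Pi.add_apply, Pi.smul_apply,
        smul_eq_mul, Pi.zero_apply, Wm_apply, hFm] at this
      linarith
  have hinv : (L ∘L ContinuousLinearMap.inr ℝ ℝ (EE A B)).IsInvertible := by
    rw [hL2]
    exact isInvertible_of_injective hfin _ hDinj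
  set g := hL.implicitFunctionOfProdDomain hinv with hg
  have hg1 := hL.tendsto_implicitFunctionOfProdDomain hinv
  have hg2 := hL.eventually_apply_implicitFunctionOfProdDomain hinv
  have hg3 := hL.eventually_apply_eq_iff_implicitFunctionOfProdDomain hinv
  rw [← hg] at hg1 hg2 hg3
  simp only at hg1 hg2
  have hzero : Psi A B m q p c0 Fm Gm ((0 : ℝ), ((0, 0, 0) : EE A B)) = 0 := by
    ext s
    simp only [Psi, map_zero, add_zero, zero_smul, Pi.sub_apply, Pi.smul_apply, smul_eq_mul,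
      Wm_apply, Pi.zero_apply, hFm]
    rw [h0 s s.2]; ring
  rw [hzero] at hg2 hg3
  -- the branch
  let ψ : ℝ → Vec n × Vec n × ℝ := fun ε => (q + extC A (g ε).1, p + extC B (g ε).2.1,
    c0 + (g ε).2.2)
  have hψt : Tendsto ψ (𝓝 0) (𝓝 (q, p, c0)) := by
    have e1 : Tendsto (fun X : EE A B => (q + extC A X.1, p + extC B X.2.1, c0 + X.2.2))
        (𝓝 ((0, 0, 0) : EE A B)) (𝓝 (q, p, c0)) := by
      have hc : Continuous (fun X : EE A B => (q + extC A X.1, p + extC B X.2.1, c0 + X.2.2)) := by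
        fun_prop
      have := hc.tendsto ((0, 0, 0) : EE A B)
      simpa using this
    exact e1.comp hg1
  refine ⟨ψ, hψt, ?_, ?_, ?_⟩
  · filter_upwards [hg2] with ε hε
    refine ⟨?_, ?_, ?_⟩
    · intro i hi
      simp only [ψ, Pi.sub_apply, Pi.add_apply, extC_supp A _ i hi]
      ring
    · intro i hi
      simp only [ψ, Pi.sub_apply, Pi.add_apply, extC_supp B _ i hi]
      ring
    · intro s hs
      have := congrFun hε ⟨s, hs⟩
      simp only [Psi, Pi.sub_apply, Pi.smul_apply, Pi.add_apply, smul_eq_mul, Wm_apply,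
        Pi.zero_apply, hFm, hGm] at this
      simp only [ψ]
      linarith
  · -- uniqueness
    have hcont : Tendsto (fun z : ℝ × (Vec n × Vec n × ℝ) =>
        ((z.1, (res A (z.2.1 - q), res B (z.2.2.1 - p), z.2.2.2 - c0)) : ℝ × EE A B))
        (𝓝 ((0 : ℝ), (q, p, c0))) (𝓝 ((0 : ℝ), ((0, 0, 0) : EE A B))) := by
      have hc : Continuous (fun z : ℝ × (Vec n × Vec n × ℝ) =>
        ((z.1, (res A (z.2.1 - q), res B (z.2.2.1 - p), z.2.2.2 - c0)) : ℝ × EE A B)) := by
        have hA := continuous_res A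
        have hB := continuous_res B
        fun_prop
      have := hc.tendsto ((0 : ℝ), (q, p, c0))
      have e : (((0 : ℝ), (res A (q - q), res B (p - p), c0 - c0)) : ℝ × EE A B)
          = ((0 : ℝ), ((0, 0, 0) : EE A B)) := by
        simp only [sub_self]
        rfl
      rw [e] at this
      exact this
    filter_upwards [hcont.eventually hg3] with z hz hA hB hW
    have key := hz.1 ?_
    · have e1 : extC A (res A (z.2.1 - q)) = z.2.1 - q := extC_res A _ hA
      have e2 : extC B (res B (z.2.2.1 - p)) = z.2.2.1 - p := extC_res B _ hB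
      have : ψ z.1 = (q + extC A (g z.1).1, p + extC B (g z.1).2.1, c0 + (g z.1).2.2) := rfl
      rw [this, key, e1, e2]
      refine Prod.ext ?_ (Prod.ext ?_ ?_)
      · simp
      · simp
      · simp
    · ext s
      simp only [Psi]
      rw [extC_res A _ hA, extC_res B _ hB]
      simp only [add_sub_cancel, Pi.sub_apply, Pi.smul_apply, Pi.add_apply, smul_eq_mul,
        Wm_apply, Pi.zero_apply, hFm, hGm]
      rw [hW s s.2]
      ring
  · -- nondegeneracy
    have hD : Tendsto (fun ε : ℝ => DPsi A B m q p Fm Gm (ε, g ε)) (𝓝 0)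
        (𝓝 (DPsi A B m q p Fm Gm ((0 : ℝ), ((0, 0, 0) : EE A B)))) := by
      apply (continuous_DPsi A B m q p Fm Gm).continuousAt.tendsto.comp
      exact Tendsto.prodMk_nhds tendsto_id hg1
    have hev := hD.eventually (eventually_injective _ (isInvertible_of_injective hfin _ hDinj))
    filter_upwards [hev] with ε hε x y κ hx hy hW
    have e0 : DPsi A B m q p Fm Gm (ε, g ε) (res A x, res B y, κ) = 0 := by
      rw [DPsi_apply]
      ext s
      simp only [extC_res A x hx, extC_res B y hy, Pi.sub_apply, Pi.add_apply, Pi.smul_apply,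
        smul_eq_mul, Wm_apply, Pi.zero_apply, hFm, hGm]
      have := hW s s.2
      simp only [ψ] at this
      linarith
    have e1 := (injective_iff_map_eq_zero _).1 hε _ e0
    have e2 : res A x = 0 := congrArg Prod.fst e1
    have e3 : res B y = 0 := congrArg (fun z => z.2.1) e1
    have e4 : κ = 0 := congrArg (fun z => z.2.2) e1
    refine ⟨?_, ?_, e4⟩
    · rw [← extC_res A x hx, e2, map_zero]
    · rw [← extC_res B y hy, e3, map_zero]

end Pool.Agent.H93W
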