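import Mathlib
import Pool.Agent.H93W.Local

/-!
# The branches of solutions over `F (1 + ε t ^ 2)`
-/

set_option autoImplicit false

namespace Pool.Agent.H93W

open Finset Filter Topology

variable {n : ℕ}

/-- the coefficients of `t ^ 2 F` -/
def shf (F : ℕ → ℝ) (s : ℕ) : ℝ := if 2 ≤ s then F (s - 2) else 0

/-- the coefficients of `(1 + ε t ^ 2) F` -/
def pert (F : ℕ → ℝ) (ε : ℝ) (s : ℕ) : ℝ := F s + ε * shf F s

lemma Good.pert {F : ℕ → ℝ} {D : ℕ} (hF : Good F D) (hD : 1 ≤ D) {ε : ℝ} (hε : 0 < ε) :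
    Good (pert F ε) (D + 2) := by
  refine ⟨?_, ?_, ?_⟩
  · have h1 : F (D + 2) = 0 := hF.zero _ (by omega)
    have h2 : shf F (D + 2) = F D := by simp [shf]
    simp only [H93W.pert, h1, h2, zero_add]
    exact mul_pos hε hF.pos
  · intro s hs
    have h1 : F s = 0 := hF.zero _ (by omega)
    have h2 : shf F s = 0 := by
      simp only [shf]
      rw [if_pos (by omega)]
      exact hF.zero _ (by omega)
    simp [H93W.pert, h1, h2]
  · intro s hs
    have h1 : F s = 0 := hF.zero _ (by omega)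
    have h2 : shf F s = 0 := by
      simp only [shf]
      rw [if_pos (by omega)]
      exact hF.sub _ (by omega)
    simp [H93W.pert, h1, h2]

/-- the type `(a', b')` is obtained from `(a, b)` by raising one degree by two -/
def Up (a b a' b' : Fin n) : Prop :=
  (a' = a ∧ (b' : ℕ) = (b : ℕ) + 2) ∨ ((a' : ℕ) = (a : ℕ) + 2 ∧ b' = b)

/-- allowed indices for the change of the first vector -/
def setA (a a' : Fin n) : Finset (Fin n) := (Finset.Iic a').erase a

/-- allowed indices for the change of the second vector -/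
def setB (a b b' : Fin n) : Finset (Fin n) := ((Finset.Iic b').erase a).erase b

lemma mem_setA {a a' i : Fin n} : i ∈ setA a a' ↔ i ≠ a ∧ i ≤ a' := by
  simp [setA]

lemma mem_setB {a b b' i : Fin n} : i ∈ setB a b b' ↔ i ≠ b ∧ i ≠ a ∧ i ≤ b' := by
  simp [setB]

lemma card_sets {a b a' b' : Fin n} (hab : a < b) (hab' : a' < b') (hup : Up a b a' b') :
    (setA a a').card + (setB a b b').card + 1 = (a' : ℕ) + b' := by
  have haa : a ≤ a' := by
    rcases hup with ⟨h1, h2⟩ | ⟨h1, h2⟩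
    · exact h1 ▸ le_refl _
    · rw [Fin.le_def]; omega
  have hbb : b ≤ b' := by
    rcases hup with ⟨h1, h2⟩ | ⟨h1, h2⟩
    · rw [Fin.le_def]; omega
    · exact h2 ▸ le_refl _
  have h1 : (setA a a').card = a' := by
    unfold setA
    rw [Finset.card_erase_of_mem (by simpa using haa), Fin.card_Iic]
    omega
  have h2 : (setB a b b').card = (b' : ℕ) - 1 := by
    unfold setB
    rw [Finset.card_erase_of_mem, Finset.card_erase_of_mem, Fin.card_Iic]
    · omega
    · simpa using hab.le.trans hbb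
    · simp only [Finset.mem_erase, Finset.mem_Iic]
      exact ⟨hab.ne', hbb⟩
  have : (a' : ℕ) < b' := hab'
  omega

/-- the linearised system has no kernel -/
lemma lin_inj {F : ℕ → ℝ} {D : ℕ} (hF : Good F D) {a b a' b' : Fin n} (hab : a < b)
    (hab' : a' < b') (hup : Up a b a' b') {v : Vec n × Vec n} (hv : v ∈ Sol F a b)
    (hnd : ND a b v) (x y : Vec n) (κ : ℝ) (hx : Supp (setA a a') x) (hy : Supp (setB a b b') y)
    (hW : ∀ s < (a' : ℕ) + b', W x v.2 s + W v.1 y s = κ * F s) : x = 0 ∧ y = 0 ∧ κ = 0 := by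
  have hsum := Sol.sum_eq hF hab hv
  have hconst := Sol.const_eq hF hab hv
  obtain ⟨⟨h1, h2, h3, h4, h5⟩, -⟩ := hv
  have habN : (a : ℕ) < b := hab
  have habN' : (a' : ℕ) < b' := hab'
  have hxa : x a = 0 := hx a (by simp [mem_setA])
  have hxa' : ∀ i, a' < i → x i = 0 := fun i hi => hx i (by
    rw [mem_setA]; intro h; exact absurd h.2 (not_le.2 hi))
  have hya : y a = 0 := hy a (by simp [mem_setB])
  have hyb : y b = 0 := hy b (by simp [mem_setB])
  have hyb' : ∀ i, b' < i → y i = 0 := fun i hi => hy i (by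
    rw [mem_setB]; intro h; exact absurd h.2.2 (not_le.2 hi))
  -- the supports are as for the type (a, b)
  have key : (∀ i, a < i → x i = 0) ∧ (∀ j, b < j → y j = 0) := by
    rcases hup with ⟨e1, e2⟩ | ⟨e1, e2⟩
    · subst e1
      refine ⟨hxa', ?_⟩
      -- y b' = 0
      have f1 := hW (D + 2) (by omega)
      rw [W_high' x v.2 a' b (fun i hi => hxa' i hi) (fun j hj => h4 j hj) (D + 2) (by omega),
        W_top v.1 y a' b' h2 hyb' (D + 2) (by omega), hF.zero _ (by omega), h1] at f1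
      have g1 : y b' = 0 := by
        have : ((a' : ℕ) : ℝ) < ((b' : ℕ) : ℝ) := by exact_mod_cast habN'
        have h7 : (((b' : ℕ) : ℝ) - ((a' : ℕ) : ℝ)) * y b' = 0 := by linarith
        rcases mul_eq_zero.1 h7 with h | h
        · linarith
        · exact h
      let b1 : Fin n := ⟨(b : ℕ) + 1, by have := b'.2; omega⟩
      have hb1 : ∀ j, b1 < j → y j = 0 := by
        intro j hj
        rw [Fin.lt_def] at hj
        simp only [b1] at hj
        by_cases hjb : j = b'
        · rw [hjb, g1]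
        · apply hyb'
          rw [Fin.lt_def]
          have : (j : ℕ) ≠ b' := fun h => hjb (Fin.ext h)
          omega
      have f2 := hW (D + 1) (by omega)
      rw [W_high' x v.2 a' b (fun i hi => hxa' i hi) (fun j hj => h4 j hj) (D + 1) (by omega),
        W_top v.1 y a' b1 h2 hb1 (D + 1) (by simp only [b1]; omega), hF.zero _ (by omega), h1]
        at f2
      have g2 : y b1 = 0 := by
        have : ((a' : ℕ) : ℝ) < ((b1 : ℕ) : ℝ) := by
          simp only [b1]
          exact_mod_cast (by omega : (a' : ℕ) < (b : ℕ) + 1)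
        have h7 : (((b1 : ℕ) : ℝ) - ((a' : ℕ) : ℝ)) * y b1 = 0 := by linarith
        rcases mul_eq_zero.1 h7 with h | h
        · linarith
        · exact h
      intro j hj
      by_cases hjb : j = b1
      · rw [hjb, g2]
      · apply hb1
        rw [Fin.lt_def] at hj ⊢
        have : (j : ℕ) ≠ b1 := fun h => hjb (Fin.ext h)
        simp only [b1] at this ⊢
        omega
    · subst e2
      refine ⟨?_, hyb'⟩
      have f1 := hW (D + 2) (by omega)
      rw [W_high' v.1 y a b' (fun i hi => h2 i hi) (fun j hj => hyb' j hj) (D + 2) (by omega),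
        W_top x v.2 a' b' hxa' h4 (D + 2) (by omega), hF.zero _ (by omega), h3] at f1
      have g1 : x a' = 0 := by
        have : ((a' : ℕ) : ℝ) < ((b' : ℕ) : ℝ) := by exact_mod_cast habN'
        have h7 : (((b' : ℕ) : ℝ) - ((a' : ℕ) : ℝ)) * x a' = 0 := by linarith
        rcases mul_eq_zero.1 h7 with h | h
        · linarith
        · exact h
      let a1 : Fin n := ⟨(a : ℕ) + 1, by have := a'.2; omega⟩
      have ha1 : ∀ j, a1 < j → x j = 0 := by
        intro j hj
        rw [Fin.lt_def] at hj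
        simp only [a1] at hj
        by_cases hja : j = a'
        · rw [hja, g1]
        · apply hxa'
          rw [Fin.lt_def]
          have : (j : ℕ) ≠ a' := fun h => hja (Fin.ext h)
          omega
      have f2 := hW (D + 1) (by omega)
      rw [W_high' v.1 y a b' (fun i hi => h2 i hi) (fun j hj => hyb' j hj) (D + 1) (by omega),
        W_top x v.2 a1 b' ha1 h4 (D + 1) (by simp only [a1]; omega), hF.zero _ (by omega), h3]
        at f2
      have g2 : x a1 = 0 := by
        have : ((a1 : ℕ) : ℝ) < ((b' : ℕ) : ℝ) := by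
          simp only [a1]
          exact_mod_cast (by omega : (a : ℕ) + 1 < (b' : ℕ))
        have h7 : (((b' : ℕ) : ℝ) - ((a1 : ℕ) : ℝ)) * x a1 = 0 := by linarith
        rcases mul_eq_zero.1 h7 with h | h
        · linarith
        · exact h
      intro j hj
      by_cases hja : j = a1
      · rw [hja, g2]
      · apply ha1
        rw [Fin.lt_def] at hj ⊢
        have : (j : ℕ) ≠ a1 := fun h => hja (Fin.ext h)
        simp only [a1] at this ⊢
        omega
  obtain ⟨kx, ky⟩ := key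
  -- all coefficients
  have hall : ∀ s, W x v.2 s + W v.1 y s = κ * F s := by
    intro s
    by_cases hs : s < (a' : ℕ) + b'
    · exact hW s hs
    · have hsd : D + 3 ≤ s := by
        rcases hup with ⟨e1, e2⟩ | ⟨e1, e2⟩
        · have : (a' : ℕ) = a := by rw [e1]
          omega
        · have : (b' : ℕ) = b := by rw [e2]
          omega
      rw [W_high x v.2 a b kx h4 s (by omega), W_high v.1 y a b h2 ky s (by omega),
        hF.zero s (by omega)]
      ring
  have hc0 : (((b : ℕ) : ℝ) - ((a : ℕ) : ℝ)) / F D ≠ 0 := by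
    have : ((a : ℕ) : ℝ) < ((b : ℕ) : ℝ) := by exact_mod_cast habN
    have h8 : 0 < (((b : ℕ) : ℝ) - ((a : ℕ) : ℝ)) / F D := div_pos (by linarith) hF.pos
    exact h8.ne'
  obtain ⟨⟨α, hα⟩, ⟨β, γ, hβγ⟩⟩ := hnd x y (κ / ((((b : ℕ) : ℝ) - ((a : ℕ) : ℝ)) / F D)) kx ky (by
    intro s
    rw [hall s, hconst s, ← mul_assoc, div_mul_cancel₀ _ hc0])
  have hα0 : α = 0 := by
    have := congrFun hα a
    simp only [Pi.smul_apply, smul_eq_mul, h1, hxa] at this
    linarith
  have hx0 : x = 0 := by rw [hα, hα0, zero_smul]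
  have hβ0 : β = 0 := by
    have := congrFun hβγ a
    simp only [Pi.add_apply, Pi.smul_apply, smul_eq_mul, h1, h5, hya] at this
    linarith
  have hγ0 : γ = 0 := by
    have := congrFun hβγ b
    simp only [Pi.add_apply, Pi.smul_apply, smul_eq_mul, h3, hyb, h2 b hab] at this
    linarith
  have hy0 : y = 0 := by rw [hβγ, hβ0, hγ0, zero_smul, zero_smul, add_zero]
  refine ⟨hx0, hy0, ?_⟩
  have := hall D
  rw [hx0, hy0, W_zero_left, W_zero_right] at this
  rcases mul_eq_zero.1 (by linarith : κ * F D = 0) with h | h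
  · exact h
  · exact absurd h hF.pos.ne'

/-- data of a branch of solutions through `v`, of the type `(a', b')` -/
structure Branch (F : ℕ → ℝ) (a b a' b' : Fin n) (v : Vec n × Vec n)
    (β : ℝ → Vec n × Vec n) : Prop where
  mem : ∀ᶠ ε in 𝓝[>] (0 : ℝ), β ε ∈ Sol (pert F ε) a' b'
  ne : ∀ᶠ ε in 𝓝[>] (0 : ℝ), pl (β ε).1 (β ε).2 a b ≠ 0
  lim : Tendsto (fun ε => chart a b (β ε)) (𝓝[>] (0 : ℝ)) (𝓝 v)
  uniq : ∃ N ∈ 𝓝 v, ∀ᶠ ε in 𝓝[>] (0 : ℝ), ∀ V ∈ Sol (pert F ε) a' b',
    pl V.1 V.2 a b ≠ 0 → chart a b V ∈ N → V = β ε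
  nd : ∀ᶠ ε in 𝓝[>] (0 : ℝ), ND a' b' (β ε)

lemma continuous_W (s : ℕ) : Continuous (fun v : Vec n × Vec n => W v.1 v.2 s) := by
  unfold W
  refine continuous_finsetSum _ fun i _ => continuous_finsetSum _ fun j _ => ?_
  split_ifs
  · fun_prop
  · exact continuous_const

theorem exists_branch {F : ℕ → ℝ} {D : ℕ} (hF : Good F D) (hD : 1 ≤ D) {a b a' b' : Fin n}
    (hab : a < b) (hab' : a' < b') (hup : Up a b a' b') {v : Vec n × Vec n}
    (hv : v ∈ Sol F a b) (hnd : ND a b v) : ∃ β : ℝ → Vec n × Vec n, Branch F a b a' b' v β := by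
  have hsum := Sol.sum_eq hF hab hv
  have hconst := Sol.const_eq hF hab hv
  have hlin := lin_inj hF hab hab' hup hv hnd
  obtain ⟨q, p⟩ := v
  obtain ⟨⟨h1, h2, h3, h4, h5⟩, -⟩ := hv
  simp only at h1 h2 h3 h4 h5 hconst hlin
  have habN : (a : ℕ) < b := hab
  have habN' : (a' : ℕ) < b' := hab'
  have haa : a ≤ a' := by
    rcases hup with ⟨h1, h2⟩ | ⟨h1, h2⟩
    · exact h1 ▸ le_refl _
    · rw [Fin.le_def]; omega
  have hbb : b ≤ b' := by
    rcases hup with ⟨h1, h2⟩ | ⟨h1, h2⟩
    · rw [Fin.le_def]; omega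
    · exact h2 ▸ le_refl _
  have ha'b : a' < b := by
    rcases hup with ⟨h1, h2⟩ | ⟨h1, h2⟩
    · rw [h1]; exact hab
    · rw [← h2]; exact hab'
  have hsum' : (a' : ℕ) + b' = D + 3 := by
    rcases hup with ⟨e1, e2⟩ | ⟨e1, e2⟩
    · have : (a' : ℕ) = a := by rw [e1]
      omega
    · have : (b' : ℕ) = b := by rw [e2]
      omega
  set c0 : ℝ := (((b : ℕ) : ℝ) - ((a : ℕ) : ℝ)) / F D with hc0
  have hc0pos : 0 < c0 := by
    have : ((a : ℕ) : ℝ) < ((b : ℕ) : ℝ) := by exact_mod_cast habN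
    exact div_pos (by linarith) hF.pos
  obtain ⟨ψ, hψt, hψs, hψu, hψn⟩ := branch (setA a a') (setB a b b') ((a' : ℕ) + b')
    (card_sets hab hab' hup) q p c0 F (shf F) (fun s _ => hconst s) hlin
  -- basic facts on vectors in the allowed region
  have supA : ∀ u : Vec n, Supp (setA a a') (u - q) → u a = 1 ∧ u b = 0 ∧ ∀ i, a' < i → u i = 0 := by
    intro u hu
    refine ⟨?_, ?_, ?_⟩
    · have := hu a (by simp [mem_setA])
      simp only [Pi.sub_apply, h1] at this
      linarith
    · have := hu b (by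
        rw [mem_setA]; intro h; exact absurd h.2 (not_le.2 ha'b))
      simp only [Pi.sub_apply, h2 b hab] at this
      linarith
    · intro i hi
      have := hu i (by
        rw [mem_setA]; intro h; exact absurd h.2 (not_le.2 hi))
      simp only [Pi.sub_apply, h2 i (lt_of_le_of_lt haa hi)] at this
      linarith
  have supB : ∀ w : Vec n, Supp (setB a b b') (w - p) → w a = 0 ∧ w b = 1 ∧
      ∀ i, b' < i → w i = 0 := by
    intro w hw
    refine ⟨?_, ?_, ?_⟩
    · have := hw a (by simp [mem_setB])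
      simp only [Pi.sub_apply, h5] at this
      linarith
    · have := hw b (by simp [mem_setB])
      simp only [Pi.sub_apply, h3] at this
      linarith
    · intro i hi
      have := hw i (by
        rw [mem_setB]; intro h; exact absurd h.2.2 (not_le.2 hi))
      simp only [Pi.sub_apply, h4 i (lt_of_le_of_lt hbb hi)] at this
      linarith
  -- the good set of small positive ε
  have hmono : 𝓝[>] (0 : ℝ) ≤ 𝓝 (0 : ℝ) := nhdsWithin_le_nhds
  have hκ : ∀ᶠ ε in 𝓝 (0 : ℝ), 0 < (ψ ε).2.2 := by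
    have ht : Tendsto (fun ε => (ψ ε).2.2) (𝓝 0) (𝓝 c0) :=
      ((continuous_snd.comp continuous_snd).tendsto (q, p, c0)).comp hψt
    exact ht.eventually (lt_mem_nhds hc0pos)
  have hpos : ∀ᶠ ε in 𝓝[>] (0 : ℝ), 0 < ε := eventually_mem_nhdsWithin
  have hgood : ∀ᶠ ε in 𝓝[>] (0 : ℝ), 0 < ε ∧ 0 < (ψ ε).2.2 ∧
      (Supp (setA a a') ((ψ ε).1 - q) ∧ Supp (setB a b b') ((ψ ε).2.1 - p) ∧
        ∀ s < (a' : ℕ) + b', W (ψ ε).1 (ψ ε).2.1 s = (ψ ε).2.2 * (F s + ε * shf F s)) := by
    filter_upwards [hpos, hmono hκ, hmono hψs] with ε e1 e2 e3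
    exact ⟨e1, e2, e3⟩
  -- consequences for a good ε
  have hfacts : ∀ ε : ℝ, (0 < ε ∧ 0 < (ψ ε).2.2 ∧
      (Supp (setA a a') ((ψ ε).1 - q) ∧ Supp (setB a b b') ((ψ ε).2.1 - p) ∧
        ∀ s < (a' : ℕ) + b', W (ψ ε).1 (ψ ε).2.1 s = (ψ ε).2.2 * (F s + ε * shf F s))) →
      (∀ s, W (ψ ε).1 (ψ ε).2.1 s = (ψ ε).2.2 * pert F ε s) ∧
      (ψ ε).1 a' * (ψ ε).2.1 b' ≠ 0 ∧
      pl (ψ ε).1 (ψ ε).2.1 a' b' = (ψ ε).1 a' * (ψ ε).2.1 b' ∧
      pl (ψ ε).1 (ψ ε).2.1 a b = 1 ∧
      chart a b ((ψ ε).1, (ψ ε).2.1) = ((ψ ε).1, (ψ ε).2.1) := by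
    rintro ε ⟨hε, hk, hsA, hsB, hWs⟩
    obtain ⟨a1, a2, a3⟩ := supA _ hsA
    obtain ⟨b1, b2, b3⟩ := supB _ hsB
    have hWall : ∀ s, W (ψ ε).1 (ψ ε).2.1 s = (ψ ε).2.2 * pert F ε s := by
      intro s
      by_cases hs : s < (a' : ℕ) + b'
      · exact hWs s hs
      · rw [W_high _ _ a' b' a3 b3 s (by omega), (hF.pert hD hε).zero s (by omega), mul_zero]
    have htop := W_top _ _ a' b' a3 b3 (D + 2) (by omega)
    rw [hWall] at htop
    have hpp : 0 < (ψ ε).2.2 * pert F ε (D + 2) := mul_pos hk (hF.pert hD hε).pos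
    have hne : (ψ ε).1 a' * (ψ ε).2.1 b' ≠ 0 := by
      intro h0
      rw [h0, mul_zero] at htop
      exact hpp.ne' htop
    refine ⟨hWall, hne, ?_, ?_, ?_⟩
    · simp only [pl, a3 b' hab']
      ring
    · simp only [pl, a1, a2, b1, b2]
      ring
    · exact chart_of_normal a b _ _ a1 a2 b1 b2
  refine ⟨fun ε => chart a' b' ((ψ ε).1, (ψ ε).2.1), ?_, ?_, ?_, ?_, ?_⟩
  · -- membership
    filter_upwards [hgood] with ε hε
    obtain ⟨hWall, hne, hpl, hpl1, hch⟩ := hfacts ε hε
    obtain ⟨hε0, hk, hsA, hsB, hWs⟩ := hε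
    obtain ⟨a1, a2, a3⟩ := supA _ hsA
    obtain ⟨b1, b2, b3⟩ := supB _ hsB
    have hplne : pl (ψ ε).1 (ψ ε).2.1 a' b' ≠ 0 := by rw [hpl]; exact hne
    refine ⟨⟨chart_a a' b' _ _ hplne, ?_, chart_b' a' b' _ _ hplne, ?_, chart_a' a' b' _ _⟩, ?_⟩
    · intro i hi
      simp only [chart, pl, a3 i hi, a3 b' hab']
      ring
    · intro j hj
      simp only [chart, pl, b3 j hj, a3 j (hab'.trans hj)]
      ring
    · refine ⟨(ψ ε).2.2 / pl (ψ ε).1 (ψ ε).2.1 a' b', div_ne_zero hk.ne' hplne, ?_⟩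
      intro s
      rw [W_chart a' b' _ _ hplne, hWall]
      ring
  · filter_upwards [hgood] with ε hε
    obtain ⟨hWall, hne, hpl, hpl1, hch⟩ := hfacts ε hε
    have hplne : pl (ψ ε).1 (ψ ε).2.1 a' b' ≠ 0 := by rw [hpl]; exact hne
    rw [pl_chart a' b' _ _ hplne, hpl1]
    exact div_ne_zero one_ne_zero hplne
  · -- limit
    have hlim : Tendsto (fun ε => ((ψ ε).1, (ψ ε).2.1)) (𝓝[>] (0 : ℝ)) (𝓝 (q, p)) := by
      have hc : Continuous (fun z : Vec n × Vec n × ℝ => (z.1, z.2.1)) := by fun_prop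
      exact ((hc.tendsto (q, p, c0)).comp hψt).mono_left hmono
    refine hlim.congr' ?_
    filter_upwards [hgood] with ε hε
    obtain ⟨hWall, hne, hpl, hpl1, hch⟩ := hfacts ε hε
    have hplne : pl (ψ ε).1 (ψ ε).2.1 a' b' ≠ 0 := by rw [hpl]; exact hne
    rw [chart_chart a' b' a b _ _ hplne, hch]
  · -- uniqueness
    have hden : F D + (0 : ℝ) * shf F D ≠ 0 := by
      have := hF.pos.ne'
      simpa using this
    have hmap : Tendsto (fun z : ℝ × (Vec n × Vec n) =>
        ((z.1, (z.2.1, z.2.2, W z.2.1 z.2.2 D / (F D + z.1 * shf F D))) : ℝ × (Vec n × Vec n × ℝ)))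
        (𝓝 ((0 : ℝ), (q, p))) (𝓝 ((0 : ℝ), (q, p, c0))) := by
      have hcW : ContinuousAt (fun z : ℝ × (Vec n × Vec n) => W z.2.1 z.2.2 D)
          ((0 : ℝ), (q, p)) := ((continuous_W D).comp continuous_snd).continuousAt
      have hcd : ContinuousAt (fun z : ℝ × (Vec n × Vec n) => F D + z.1 * shf F D)
          ((0 : ℝ), (q, p)) := by fun_prop
      have hdiv := hcW.div hcd hden
      have hval : W q p D / (F D + (0 : ℝ) * shf F D) = c0 := by
        rw [hconst D, zero_mul, add_zero, mul_div_assoc, div_self hF.pos.ne', mul_one]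
      have ht := hdiv.tendsto
      simp only [Pi.div_apply] at ht
      rw [hval] at ht
      have t1 : Tendsto (fun z : ℝ × (Vec n × Vec n) => z.1) (𝓝 ((0 : ℝ), (q, p))) (𝓝 0) :=
        continuous_fst.tendsto _
      have t2 : Tendsto (fun z : ℝ × (Vec n × Vec n) => z.2.1) (𝓝 ((0 : ℝ), (q, p))) (𝓝 q) :=
        (continuous_fst.comp continuous_snd).tendsto _
      have t3 : Tendsto (fun z : ℝ × (Vec n × Vec n) => z.2.2) (𝓝 ((0 : ℝ), (q, p))) (𝓝 p) :=
        (continuous_snd.comp continuous_snd).tendsto _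
      exact t1.prodMk_nhds (t2.prodMk_nhds (t3.prodMk_nhds ht))
    have hev := hmap.eventually hψu
    rw [nhds_prod_eq] at hev
    obtain ⟨pa, hpa, pb, hpb, hpab⟩ := Filter.eventually_prod_iff.1 hev
    refine ⟨{V | pb V}, hpb, ?_⟩
    have hFDev : ∀ᶠ ε in 𝓝 (0 : ℝ), F D + ε * shf F D ≠ 0 := by
      have hcd : ContinuousAt (fun ε : ℝ => F D + ε * shf F D) 0 := by fun_prop
      exact hcd.eventually_ne hden
    filter_upwards [hmono hpa, hpos, hmono hFDev] with ε hε hε0 hFD V hV hplV hVN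
    have hV' := hV
    obtain ⟨⟨k1, k2, k3, k4, k5⟩, c, hc, hWV⟩ := hV
    have huse := hpab hε hVN
    simp only at huse
    obtain ⟨Q, P⟩ := V
    simp only at k1 k2 k3 k4 k5 hWV hplV
    have hWc : ∀ s, W (chart a b (Q, P)).1 (chart a b (Q, P)).2 s
        = (c / pl Q P a b) * pert F ε s := by
      intro s
      rw [W_chart a b _ _ hplV, hWV s]; ring
    have hκ' : W (chart a b (Q, P)).1 (chart a b (Q, P)).2 D / (F D + ε * shf F D)
        = c / pl Q P a b := by
      rw [hWc D, pert]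
      rw [mul_div_assoc, div_self hFD, mul_one]
    rw [hκ'] at huse
    have hres := huse ?_ ?_ ?_
    · have e1 : (chart a b (Q, P)).1 = (ψ ε).1 := congrArg Prod.fst hres
      have e2 : (chart a b (Q, P)).2 = (ψ ε).2.1 := congrArg (fun z => z.2.1) hres
      have e3 : ((ψ ε).1, (ψ ε).2.1) = chart a b (Q, P) := by
        rw [← e1, ← e2]
      show (Q, P) = chart a' b' ((ψ ε).1, (ψ ε).2.1)
      rw [e3, chart_chart a b a' b' _ _ hplV]
      exact (Cell.chart_eq hab' (v := (Q, P)) ⟨k1, k2, k3, k4, k5⟩).symm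
    · intro i hi
      rw [mem_setA] at hi
      by_cases hia : i = a
      · subst hia
        simp only [Pi.sub_apply, h1, chart_a i b Q P hplV]
        ring
      · have hlt : a' < i := by
          by_contra hcon
          exact hi ⟨hia, not_lt.1 hcon⟩
        have e0 : q i = 0 := h2 i (lt_of_le_of_lt haa hlt)
        simp only [Pi.sub_apply, e0, chart, pl, k2 i hlt, k2 b ha'b]
        ring
    · intro i hi
      rw [mem_setB] at hi
      by_cases hib : i = b
      · subst hib
        simp only [Pi.sub_apply, h3, chart_b' a i Q P hplV]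
        ring
      · by_cases hia : i = a
        · subst hia
          simp only [Pi.sub_apply, h5, chart_a' i b Q P]
          ring
        · have hlt : b' < i := by
            by_contra hcon
            exact hi ⟨hib, hia, not_lt.1 hcon⟩
          have e0 : p i = 0 := h4 i (lt_of_le_of_lt hbb hlt)
          simp only [Pi.sub_apply, e0, chart, pl, k4 i hlt, k2 i (hab'.trans hlt)]
          ring
    · intro s _
      exact hWc s
  · -- nondegeneracy
    filter_upwards [hgood, hmono hψn] with ε hε hn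
    obtain ⟨hWall, hne, hpl, hpl1, hch⟩ := hfacts ε hε
    obtain ⟨hε0, hk, hsA, hsB, hWs⟩ := hε
    obtain ⟨a1, a2, a3⟩ := supA _ hsA
    obtain ⟨b1, b2, b3⟩ := supB _ hsB
    set û := (ψ ε).1 with hû
    set ŵ := (ψ ε).2.1 with hŵ
    have hplne : pl û ŵ a' b' ≠ 0 := by rw [hpl]; exact hne
    have hu0 : û a' ≠ 0 := left_ne_zero_of_mul hne
    have hw0 : ŵ b' ≠ 0 := right_ne_zero_of_mul hne
    have hub' : û b' = 0 := a3 b' hab'
    -- the normalised basis in terms of û, ŵ
    have hQ : (chart a' b' (û, ŵ)).1 = (1 / û a') • û := by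
      rw [chart_fst, hpl, hub']
      have : ŵ b' / (û a' * ŵ b') = 1 / û a' := by field_simp
      rw [this]; simp
    have hP : (chart a' b' (û, ŵ)).2 = (- ŵ a' / (û a' * ŵ b')) • û + (1 / ŵ b') • ŵ := by
      rw [chart_snd, hpl]
      have : û a' / (û a' * ŵ b') = 1 / ŵ b' := by field_simp
      rw [this]
    intro x y c hx hy hW
    rw [hQ, hP] at hW
    rw [hQ, hP]
    set α := 1 / û a' with hα
    set β := - ŵ a' / (û a' * ŵ b') with hβ
    set γ := 1 / ŵ b' with hγ
    have hα0 : α ≠ 0 := by rw [hα]; exact one_div_ne_zero hu0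
    have hγ0 : γ ≠ 0 := by rw [hγ]; exact one_div_ne_zero hw0
    set x1 : Vec n := γ • x with hx1
    set y1 : Vec n := α • y - β • x with hy1
    have hW1 : ∀ s, W x1 ŵ s + W û y1 s = c * (α * γ) * W û ŵ s := by
      intro s
      have e := hW s
      rw [W_add_right, W_smul_right, W_smul_right, W_smul_left, W_add_right, W_smul_right,
        W_smul_right, W_smul_left, W_smul_left, W_self] at e
      have e1 : W x1 ŵ s = γ * W x ŵ s := W_smul_left _ _ _ _
      have e2 : W û y1 s = α * W û y s - β * W û x s := by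
        rw [hy1, sub_eq_add_neg, ← neg_smul, W_add_right, W_smul_right, W_smul_right]; ring
      rw [e1, e2, W_antisymm x û s]
      linarith
    set x2 : Vec n := x1 - x1 a • û with hx2
    set y2 : Vec n := y1 - y1 a • û - y1 b • ŵ with hy2
    have hsx : ∀ i, a' < i → x1 i = 0 := by
      intro i hi
      simp [hx1, hx i hi]
    have hsy : ∀ i, b' < i → y1 i = 0 := by
      intro i hi
      simp [hy1, hy i hi, hx i (hab'.trans hi)]
    have hfin := hn x2 y2 ((c * (α * γ) - x1 a - y1 b) * (ψ ε).2.2) ?_ ?_ ?_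
    · obtain ⟨f1, f2, -⟩ := hfin
      have g1 : x1 = x1 a • û := by rw [hx2] at f1; exact sub_eq_zero.1 f1
      have g2 : y1 = y1 a • û + y1 b • ŵ := by
        rw [hy2] at f2
        rw [sub_sub] at f2
        exact sub_eq_zero.1 f2
      have hxe : x = (γ⁻¹ * x1 a) • û := by
        have : x = γ⁻¹ • x1 := by rw [hx1, smul_smul, inv_mul_cancel₀ hγ0, one_smul]
        rw [this]
        conv_lhs => rw [g1]
        rw [smul_smul]
      refine ⟨⟨γ⁻¹ * x1 a * α⁻¹, ?_⟩, ?_⟩
      · rw [smul_smul, mul_assoc, inv_mul_cancel₀ hα0, mul_one]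
        exact hxe
      · have hye : y = (α⁻¹ * (y1 a + β * (γ⁻¹ * x1 a))) • û + (α⁻¹ * y1 b) • ŵ := by
          have e1 : α • y = y1 + β • x := by rw [hy1]; abel
          have e2 : y = α⁻¹ • (y1 + β • x) := by
            rw [← e1, smul_smul, inv_mul_cancel₀ hα0, one_smul]
          rw [e2, hxe]
          conv_lhs => rw [g2]
          module
        refine ⟨(α⁻¹ * (y1 a + β * (γ⁻¹ * x1 a)) - (α⁻¹ * y1 b * γ⁻¹) * β) * α⁻¹,
          α⁻¹ * y1 b * γ⁻¹, ?_⟩
        have e3 : ((α⁻¹ * (y1 a + β * (γ⁻¹ * x1 a)) - (α⁻¹ * y1 b * γ⁻¹) * β) * α⁻¹) • α • û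
            = (α⁻¹ * (y1 a + β * (γ⁻¹ * x1 a)) - (α⁻¹ * y1 b * γ⁻¹) * β) • û := by
          rw [smul_smul, mul_assoc, inv_mul_cancel₀ hα0, mul_one]
        have e4 : (α⁻¹ * y1 b * γ⁻¹) • (β • û + γ • ŵ)
            = ((α⁻¹ * y1 b * γ⁻¹) * β) • û + (α⁻¹ * y1 b) • ŵ := by
          rw [smul_add, smul_smul, smul_smul]
          congr 2
          rw [mul_assoc, inv_mul_cancel₀ hγ0, mul_one]
        rw [e3, e4]
        conv_lhs => rw [hye]
        module
    · intro i hi
      rw [mem_setA] at hi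
      by_cases hia : i = a
      · subst hia
        simp [hx2, a1]
      · have hlt : a' < i := by
          by_contra hcon
          exact hi ⟨hia, not_lt.1 hcon⟩
        simp [hx2, hsx i hlt, a3 i hlt]
    · intro i hi
      rw [mem_setB] at hi
      by_cases hib : i = b
      · subst hib
        simp [hy2, a2, b2]
      · by_cases hia : i = a
        · subst hia
          simp [hy2, a1, b1]
        · have hlt : b' < i := by
            by_contra hcon
            exact hi ⟨hib, hia, not_lt.1 hcon⟩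
          simp [hy2, hsy i hlt, a3 i (hab'.trans hlt), b3 i hlt]
    · intro s _
      have e1 : W x2 ŵ s = W x1 ŵ s - x1 a * W û ŵ s := by
        rw [hx2, sub_eq_add_neg, ← neg_smul, W_add_left, W_smul_left (-x1 a) û ŵ s]; ring
      have e2 : W û y2 s = W û y1 s - y1 b * W û ŵ s := by
        rw [hy2, sub_eq_add_neg, sub_eq_add_neg, ← neg_smul, ← neg_smul, W_add_right,
          W_add_right, W_smul_right, W_smul_right, W_self]; ring
      have e3 := hW1 s
      have e4 := hWall s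
      rw [pert] at e4
      rw [e1, e2]
      linear_combination e3 + (c * (α * γ) - x1 a - y1 b) * e4

end Pool.Agent.H93W
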