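import Mathlib
import Pool.Agent.H93W.StepA

/-!
# Compactness: every solution over `F (1 + ε t ^ 2)` is near a solution over `F`
-/

set_option autoImplicit false

namespace Pool.Agent.H93W

open Finset Filter Topology

variable {n : ℕ}

lemma continuous_pl (i j : Fin n) : Continuous (fun v : Vec n × Vec n => pl v.1 v.2 i j) := by
  unfold pl
  fun_prop

lemma continuousAt_chart (a b : Fin n) (v : Vec n × Vec n) (h : pl v.1 v.2 a b ≠ 0) :
    ContinuousAt (chart a b) v := by
  have h1 : ContinuousAt (fun V : Vec n × Vec n => fun i => pl V.1 V.2 i b / pl V.1 V.2 a b) v := by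
    rw [continuousAt_pi]
    intro i
    exact ((continuous_pl i b).continuousAt).div ((continuous_pl a b).continuousAt) h
  have h2 : ContinuousAt (fun V : Vec n × Vec n => fun j => pl V.1 V.2 a j / pl V.1 V.2 a b) v := by
    rw [continuousAt_pi]
    intro i
    exact ((continuous_pl a i).continuousAt).div ((continuous_pl a b).continuousAt) h
  exact h1.prodMk h2

theorem compactness {F : ℕ → ℝ} {D : ℕ} (hF : Good F D) {a' b' : Fin n} (hab' : a' < b')
    (N : Fin n → Fin n → (Vec n × Vec n) → Set (Vec n × Vec n))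
    (hN : ∀ a b v, N a b v ∈ 𝓝 v) :
    ∀ᶠ ε in 𝓝[>] (0 : ℝ), ∀ V ∈ Sol (pert F ε) a' b', ∃ a b : Fin n, a < b ∧ a ≤ a' ∧ b ≤ b' ∧
      ∃ v ∈ Sol F a b, pl V.1 V.2 a b ≠ 0 ∧ chart a b V ∈ N a b v := by
  by_contra hcon
  rw [Filter.not_eventually] at hcon
  obtain ⟨e, he1, he2⟩ := Filter.exists_seq_forall_of_frequently hcon
  push Not at he2
  choose V hV hbad using he2
  have he0 : Tendsto e atTop (𝓝 0) := he1.mono_right nhdsWithin_le_nhds
  -- normalised Plücker vectors
  let Pk : ℕ → (Fin n → Fin n → ℝ) := fun k i j => pl (V k).1 (V k).2 i j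
  have hPk : ∀ k, Pk k ≠ 0 := by
    intro k h0
    have h1 := (hV k).1.pl_ne hab'
    have h2 := congrFun (congrFun h0 a') b'
    simp only [Pk, Pi.zero_apply] at h2
    rw [h1] at h2
    exact one_ne_zero h2
  have hnorm : ∀ k, ‖Pk k‖ ≠ 0 := fun k => norm_ne_zero_iff.2 (hPk k)
  let Qk : ℕ → (Fin n → Fin n → ℝ) := fun k => ‖Pk k‖⁻¹ • Pk k
  have hQk : ∀ k, Qk k ∈ Metric.sphere (0 : Fin n → Fin n → ℝ) 1 := by
    intro k
    rw [mem_sphere_zero_iff_norm]
    simp only [Qk]
    rw [norm_smul, norm_inv, norm_norm, inv_mul_cancel₀ (hnorm k)]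
  obtain ⟨Q, hQ, φ, hφ, hlim⟩ :=
    (isCompact_sphere (0 : Fin n → Fin n → ℝ) 1).tendsto_subseq hQk
  have hφt : Tendsto φ atTop atTop := hφ.tendsto_atTop
  have hQne : ∃ i0 j0, Q i0 j0 ≠ 0 := by
    by_contra hc
    push Not at hc
    have : Q = 0 := by
      ext i j
      exact hc i j
    rw [this] at hQ
    simp at hQ
  obtain ⟨i0, j0, hij⟩ := hQne
  have hcoord : ∀ i j, Tendsto (fun k => Qk (φ k) i j) atTop (𝓝 (Q i j)) := by
    intro i j
    have h1 := (tendsto_pi_nhds.1 hlim) i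
    exact (tendsto_pi_nhds.1 h1) j
  have hne : ∀ᶠ k in atTop, Qk (φ k) i0 j0 ≠ 0 := (hcoord i0 j0).eventually_ne hij
  have hplne : ∀ᶠ k in atTop, pl (V (φ k)).1 (V (φ k)).2 i0 j0 ≠ 0 := by
    filter_upwards [hne] with k hk h0
    apply hk
    simp only [Qk, Pk, Pi.smul_apply, smul_eq_mul, h0, mul_zero]
  -- the chart at (i0, j0)
  let u : Vec n := fun i => Q i j0 / Q i0 j0
  let w : Vec n := fun j => Q i0 j / Q i0 j0
  have hchart : ∀ k, chart i0 j0 (V (φ k)) =
      (fun i => Qk (φ k) i j0 / Qk (φ k) i0 j0, fun j => Qk (φ k) i0 j / Qk (φ k) i0 j0) := by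
    intro k
    have hh := hnorm (φ k)
    refine Prod.ext ?_ ?_
    · ext i
      simp only [chart, Qk, Pk, Pi.smul_apply, smul_eq_mul]
      rw [mul_div_mul_left _ _ (inv_ne_zero hh)]
    · ext i
      simp only [chart, Qk, Pk, Pi.smul_apply, smul_eq_mul]
      rw [mul_div_mul_left _ _ (inv_ne_zero hh)]
  have hX : Tendsto (fun k => chart i0 j0 (V (φ k))) atTop (𝓝 (u, w)) := by
    simp_rw [hchart]
    apply Tendsto.prodMk_nhds
    · rw [tendsto_pi_nhds]
      intro i
      exact (hcoord i j0).div (hcoord i0 j0) hij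
    · rw [tendsto_pi_nhds]
      intro i
      exact (hcoord i0 i).div (hcoord i0 j0) hij
  have hpl1 : pl u w i0 j0 = 1 := by
    have h1 : Tendsto (fun k => pl (chart i0 j0 (V (φ k))).1 (chart i0 j0 (V (φ k))).2 i0 j0)
        atTop (𝓝 (pl u w i0 j0)) := ((continuous_pl i0 j0).tendsto (u, w)).comp hX
    have h2 : Tendsto (fun k => pl (chart i0 j0 (V (φ k))).1 (chart i0 j0 (V (φ k))).2 i0 j0)
        atTop (𝓝 1) := by
      refine tendsto_const_nhds.congr' ?_
      filter_upwards [hplne] with k hk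
      rw [pl_chart i0 j0 _ _ hk, div_self hk]
    exact tendsto_nhds_unique h1 h2
  -- the Wronskian of the limit
  have hWlim : ∀ s, W u w s * F D = W u w D * F s := by
    intro s
    have t1 : ∀ s, Tendsto (fun k => W (chart i0 j0 (V (φ k))).1 (chart i0 j0 (V (φ k))).2 s)
        atTop (𝓝 (W u w s)) := fun s => ((continuous_W s).tendsto (u, w)).comp hX
    have t2 : ∀ s, Tendsto (fun k => pert F (e (φ k)) s) atTop (𝓝 (F s)) := by
      intro s
      have : Tendsto (fun k => e (φ k)) atTop (𝓝 0) := he0.comp hφt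
      have h3 := (this.mul_const (shf F s)).const_add (F s)
      simp only [zero_mul, add_zero] at h3
      exact h3
    have h1 := (t1 s).mul (t2 D)
    have h2 := (t1 D).mul (t2 s)
    refine tendsto_nhds_unique h1 (h2.congr' ?_)
    filter_upwards [hplne] with k hk
    obtain ⟨c, hc, hWc⟩ := (hV (φ k)).2
    rw [W_chart i0 j0 _ _ hk, W_chart i0 j0 _ _ hk, hWc, hWc]
    ring
  obtain ⟨a, b, hab, hplab, hcell⟩ := exists_cell u w ⟨i0, j0, by rw [hpl1]; exact one_ne_zero⟩
  set v := chart a b (u, w) with hv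
  have hFD := hF.pos.ne'
  have hWv : ∀ s, W v.1 v.2 s = (W u w D / F D / pl u w a b) * F s := by
    intro s
    rw [hv, W_chart a b u w hplab]
    have : W u w s = W u w D / F D * F s := by
      field_simp
      exact hWlim s
    rw [this]; ring
  have hvSol : v ∈ Sol F a b := by
    refine ⟨hcell, _, ?_, hWv⟩
    intro h0
    obtain ⟨h1, h2, h3, h4, h5⟩ := hcell
    have habN : (a : ℕ) < b := hab
    have htop := W_top v.1 v.2 a b h2 h4 ((a : ℕ) + b - 1) (by omega)
    rw [hWv, h0, h1, h3] at htop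
    have : ((a : ℕ) : ℝ) < ((b : ℕ) : ℝ) := by exact_mod_cast habN
    linarith
  -- convergence in the chart (a, b)
  have hconv : Tendsto (fun k => chart a b (V (φ k))) atTop (𝓝 v) := by
    have h1 := (continuousAt_chart a b (u, w) hplab).tendsto.comp hX
    refine h1.congr' ?_
    filter_upwards [hplne] with k hk
    exact chart_chart i0 j0 a b _ _ hk
  have hplab' : ∀ᶠ k in atTop, pl (V (φ k)).1 (V (φ k)).2 a b ≠ 0 := by
    have h1 : Tendsto (fun k => pl (chart i0 j0 (V (φ k))).1 (chart i0 j0 (V (φ k))).2 a b)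
        atTop (𝓝 (pl u w a b)) := ((continuous_pl a b).tendsto (u, w)).comp hX
    filter_upwards [h1.eventually_ne hplab, hplne] with k hk1 hk2 h0
    apply hk1
    rw [pl_chart i0 j0 _ _ hk2, h0, zero_div]
  obtain ⟨k, hk1, hk2⟩ := (hplab'.and (hconv.eventually (hN a b v))).exists
  refine hbad (φ k) a b hab ?_ ?_ v hvSol hk1 hk2
  · by_contra hlt
    apply hk1
    obtain ⟨⟨h1, h2, h3, h4, h5⟩, -⟩ := hV (φ k)
    exact pl_zero_of_supp _ _ a' b' hab' h2 h4 a b hab (Or.inl (not_le.1 hlt))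
  · by_contra hlt
    apply hk1
    obtain ⟨⟨h1, h2, h3, h4, h5⟩, -⟩ := hV (φ k)
    exact pl_zero_of_supp _ _ a' b' hab' h2 h4 a b hab (Or.inr (not_le.1 hlt))

end Pool.Agent.H93W
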