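import Mathlib
import Pool.Agent.H93W.StepB

/-!
# The inductive step: the real pencils over `F (1 + ε t ^ 2)` for small `ε > 0`
-/

set_option autoImplicit false

namespace Pool.Agent.H93W

open Finset Filter Topology

variable {n : ℕ}

/-- the two leading coefficients -/
lemma W_second (u w : Vec n) (a b a' b' : Fin n) (ha : (a' : ℕ) = a + 1) (hb : (b' : ℕ) = b + 1)
    (hu : ∀ i, a' < i → u i = 0) (hw : ∀ j, b' < j → w j = 0)
    (s : ℕ) (hs : s + 1 = (a : ℕ) + b + 1) :
    W u w s = (((b : ℕ) : ℝ) - ((a' : ℕ) : ℝ)) * (u a' * w b)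
      + (((b' : ℕ) : ℝ) - ((a : ℕ) : ℝ)) * (u a * w b') := by
  have hne : a ≠ a' := by
    intro h
    rw [← h] at ha
    omega
  unfold W
  rw [← Finset.sum_subset (Finset.subset_univ {a', a}), Finset.sum_pair hne.symm]
  · congr 1
    · rw [Finset.sum_eq_single b]
      · rw [if_pos (by omega)]
      · intro j _ hj
        rw [if_neg]
        intro h
        apply hj
        apply Fin.ext
        omega
      · simp
    · rw [Finset.sum_eq_single b']
      · rw [if_pos (by omega)]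
      · intro j _ hj
        rw [if_neg]
        intro h
        apply hj
        apply Fin.ext
        omega
      · simp
  · intro i _ hi
    simp only [Finset.mem_insert, Finset.mem_singleton, not_or] at hi
    apply Finset.sum_eq_zero
    intro j _
    split_ifs with h
    · by_cases h1 : a' < i
      · rw [hu i h1]; ring
      · have h2 : (i : ℕ) < a := by
          rw [Fin.lt_def] at h1
          have e1 : (i : ℕ) ≠ a' := fun h => hi.1 (Fin.ext h)
          have e2 : (i : ℕ) ≠ a := fun h => hi.2 (Fin.ext h)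
          omega
        have : b' < j := by
          rw [Fin.lt_def]
          omega
        rw [hw j this]; ring
    · rfl

/-- no real pencils with odd degrees appear -/
theorem odd_empty {F : ℕ → ℝ} {D : ℕ} (hF : Good F D) (hD : Odd D)
    (IH : ∀ a b : Fin n, a < b → (a : ℕ) + b = D + 1 → Odd (a : ℕ) → Sol F a b = ∅)
    {a' b' : Fin n} (hab' : a' < b') (hs' : (a' : ℕ) + b' = D + 3) (ha' : Odd (a' : ℕ)) :
    ∀ᶠ ε in 𝓝[>] (0 : ℝ), Sol (pert F ε) a' b' = ∅ := by
  classical
  have hD1 : 1 ≤ D := hD.pos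
  have hFD := hF.pos
  -- neighbourhoods on which the Wronskian has a positive coefficient at t ^ D
  let N : Fin n → Fin n → (Vec n × Vec n) → Set (Vec n × Vec n) := fun a b v =>
    if 0 < W v.1 v.2 D then {V | 0 < W V.1 V.2 D} else Set.univ
  have hN : ∀ a b v, N a b v ∈ 𝓝 v := by
    intro a b v
    simp only [N]
    split_ifs with h
    · exact (continuous_W D).continuousAt.eventually (lt_mem_nhds h)
    · exact Filter.univ_mem
  have hev : ∀ᶠ ε in 𝓝 (0 : ℝ), 0 < pert F ε D := by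
    have hcd : ContinuousAt (fun ε : ℝ => pert F ε D) 0 := by
      unfold pert
      fun_prop
    have h0 : 0 < pert F 0 D := by simpa [pert] using hFD
    exact hcd.eventually (lt_mem_nhds h0)
  have hmono : 𝓝[>] (0 : ℝ) ≤ 𝓝 (0 : ℝ) := nhdsWithin_le_nhds
  have hpos : ∀ᶠ ε in 𝓝[>] (0 : ℝ), 0 < ε := eventually_mem_nhdsWithin
  filter_upwards [compactness hF hab' N hN, hmono hev, hpos] with ε hcomp hpD hε
  rw [Set.eq_empty_iff_forall_notMem]
  intro V hV
  obtain ⟨a, b, hab, haa, hbb, v, hv, hpl, hVN⟩ := hcomp V hV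
  have hsum := Sol.sum_eq hF hab hv
  have habN : (a : ℕ) < b := hab
  have habN' : (a' : ℕ) < b' := hab'
  have haaN : (a : ℕ) ≤ a' := haa
  have hbbN : (b : ℕ) ≤ b' := hbb
  -- a is even
  have haev : Even (a : ℕ) := by
    by_contra hc
    rw [Nat.not_even_iff_odd] at hc
    rw [IH a b hab hsum hc] at hv
    exact hv
  have hbev : Even (b : ℕ) := by
    have : Even ((a : ℕ) + b) := by
      rw [hsum]
      exact hD.add_one
    exact (Nat.even_add.1 this).1 haev
  have ha1 : (a' : ℕ) = a + 1 := by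
    obtain ⟨r, hr⟩ := haev
    obtain ⟨r', hr'⟩ := ha'
    obtain ⟨q, hq⟩ := hbev
    omega
  have hb1 : (b' : ℕ) = b + 1 := by omega
  have hdiff : (a : ℕ) + 2 ≤ b := by
    obtain ⟨r, hr⟩ := haev
    obtain ⟨q, hq⟩ := hbev
    omega
  -- positivity
  have hWv : 0 < W v.1 v.2 D := by
    obtain ⟨⟨h1, h2, h3, h4, h5⟩, -⟩ := hv
    rw [W_top v.1 v.2 a b h2 h4 D (by omega), h1, h3]
    have : ((a : ℕ) : ℝ) < ((b : ℕ) : ℝ) := by exact_mod_cast habN
    linarith
  simp only [N, if_pos hWv, Set.mem_ofPred_eq] at hVN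
  obtain ⟨⟨k1, k2, k3, k4, k5⟩, c, hc, hWV⟩ := hV
  obtain ⟨Q, P⟩ := V
  simp only at k1 k2 k3 k4 k5 hWV hpl
  set û := (chart a b (Q, P)).1 with hû
  set ŵ := (chart a b (Q, P)).2 with hŵ
  have hWc : ∀ s, W û ŵ s = (c / pl Q P a b) * pert F ε s := by
    intro s
    rw [hû, hŵ, W_chart a b _ _ hpl, hWV s]; ring
  set κ := c / pl Q P a b with hκ
  have hκpos : 0 < κ := by
    rw [hWc D] at hVN
    by_contra hcon
    have : κ * pert F ε D ≤ 0 := mul_nonpos_of_nonpos_of_nonneg (not_lt.1 hcon) hpD.le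
    linarith
  have hu1 : û a = 1 := chart_a a b Q P hpl
  have hw1 : ŵ b = 1 := chart_b' a b Q P hpl
  have hblt : a' < b := by rw [Fin.lt_def]; omega
  have husupp : ∀ i, a' < i → û i = 0 := by
    intro i hi
    simp only [hû, chart, pl, k2 i hi, k2 b hblt]
    ring
  have hwsupp : ∀ j, b' < j → ŵ j = 0 := by
    intro j hj
    simp only [hŵ, chart, pl, k4 j hj, k2 j (hab'.trans hj)]
    ring
  have htop := W_top û ŵ a' b' husupp hwsupp (D + 2) (by omega)
  have hsec := W_second û ŵ a b a' b' ha1 hb1 husupp hwsupp (D + 1) (by omega)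
  rw [hWc] at htop hsec
  have hpp := (hF.pert hD1 hε).pos
  have hpz := (hF.pert hD1 hε).sub (D + 1) (by omega)
  rw [hpz, mul_zero, hu1, hw1, ha1, hb1] at hsec
  rw [ha1, hb1] at htop
  push_cast at htop hsec
  set x := û a' with hx
  set y := ŵ b' with hy
  set d : ℝ := ((b : ℕ) : ℝ) - ((a : ℕ) : ℝ) with hd
  have hd2 : 2 ≤ d := by
    have : ((a : ℕ) : ℝ) + 2 ≤ ((b : ℕ) : ℝ) := by exact_mod_cast hdiff
    rw [hd]; linarith
  have e1 : (d - 1) * x + (d + 1) * y = 0 := by rw [hd]; linarith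
  have e2 : 0 < d * (x * y) := by
    have h9 : 0 < κ * pert F ε (D + 2) := mul_pos hκpos hpp
    rw [htop] at h9
    rw [hd]
    have : (((b : ℕ) : ℝ) + 1 - (((a : ℕ) : ℝ) + 1)) = ((b : ℕ) : ℝ) - ((a : ℕ) : ℝ) := by ring
    rw [this] at h9
    exact h9
  have e3 : 0 < x * y := by
    by_contra hcon
    have : d * (x * y) ≤ 0 := mul_nonpos_of_nonneg_of_nonpos (by linarith) (not_lt.1 hcon)
    linarith
  -- (d - 1) x ^ 2 + (d + 1) x y = 0
  have e4 : (d - 1) * (x * x) + (d + 1) * (x * y) = 0 := by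
    have : (d - 1) * (x * x) + (d + 1) * (x * y) = x * ((d - 1) * x + (d + 1) * y) := by ring
    rw [this, e1, mul_zero]
  have e5 : 0 ≤ (d - 1) * (x * x) := mul_nonneg (by linarith) (mul_self_nonneg x)
  have e6 : 0 < (d + 1) * (x * y) := mul_pos (by linarith) e3
  linarith

/-- the solutions over `F` from which the solutions of type `(a', b')` branch off -/
def TT (F : ℕ → ℝ) (a' b' : Fin n) : Set ((Fin n × Fin n) × (Vec n × Vec n)) :=
  {t | t.1.1 < t.1.2 ∧ Up t.1.1 t.1.2 a' b' ∧ t.2 ∈ Sol F t.1.1 t.1.2}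

theorem even_step {F : ℕ → ℝ} {D : ℕ} (hF : Good F D) (hD : Odd D)
    (IH : ∀ a b : Fin n, a < b → (a : ℕ) + b = D + 1 → Odd (a : ℕ) → Sol F a b = ∅)
    (IHfin : ∀ a b : Fin n, a < b → (a : ℕ) + b = D + 1 → (Sol F a b).Finite)
    (IHnd : ∀ a b : Fin n, a < b → ∀ v ∈ Sol F a b, ND a b v)
    {a' b' : Fin n} (hab' : a' < b') (hs' : (a' : ℕ) + b' = D + 3) (ha' : Even (a' : ℕ)) :
    ∀ᶠ ε in 𝓝[>] (0 : ℝ), (Sol (pert F ε) a' b').Finite ∧
      (Sol (pert F ε) a' b').ncard = (TT F a' b').ncard ∧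
      ∀ v ∈ Sol (pert F ε) a' b', ND a' b' v := by
  classical
  have hD1 : 1 ≤ D := hD.pos
  have hmono : 𝓝[>] (0 : ℝ) ≤ 𝓝 (0 : ℝ) := nhdsWithin_le_nhds
  -- T is finite
  have hTfin : (TT F a' b').Finite := by
    have hsub : TT F a' b' ⊆ ⋃ x ∈ (Set.univ : Set (Fin n × Fin n)),
        (if x.1 < x.2 ∧ (x.1 : ℕ) + x.2 = D + 1 then (fun v => (x, v)) '' Sol F x.1 x.2 else ∅) := by
      rintro ⟨x, v⟩ ⟨h1, h2, h3⟩
      simp only at h1 h2 h3
      simp only [Set.mem_univ, Set.iUnion_true, Set.mem_iUnion]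
      refine ⟨x, ?_⟩
      rw [if_pos ⟨h1, Sol.sum_eq hF h1 h3⟩]
      exact ⟨v, h3, rfl⟩
    refine Set.Finite.subset (Set.Finite.biUnion Set.finite_univ fun x _ => ?_) hsub
    split_ifs with h
    · exact (IHfin x.1 x.2 h.1 h.2).image _
    · exact Set.finite_empty
  -- branches
  have hbr : ∀ t : (Fin n × Fin n) × (Vec n × Vec n), ∃ β : ℝ → Vec n × Vec n,
      t ∈ TT F a' b' → Branch F t.1.1 t.1.2 a' b' t.2 β := by
    intro t
    by_cases ht : t ∈ TT F a' b'
    · obtain ⟨β, hβ⟩ := exists_branch hF hD1 ht.1 hab' ht.2.1 ht.2.2 (IHnd _ _ ht.1 _ ht.2.2)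
      exact ⟨β, fun _ => hβ⟩
    · exact ⟨fun _ => 0, fun h => absurd h ht⟩
  choose β hβ using hbr
  -- neighbourhoods
  have hNex : ∀ t : (Fin n × Fin n) × (Vec n × Vec n), ∃ N ∈ 𝓝 t.2, t ∈ TT F a' b' →
      ∀ᶠ ε in 𝓝[>] (0 : ℝ), ∀ V ∈ Sol (pert F ε) a' b',
        pl V.1 V.2 t.1.1 t.1.2 ≠ 0 → chart t.1.1 t.1.2 V ∈ N → V = β t ε := by
    intro t
    by_cases ht : t ∈ TT F a' b'
    · obtain ⟨N, hN, h⟩ := (hβ t ht).uniq
      exact ⟨N, hN, fun _ => h⟩
    · exact ⟨Set.univ, Filter.univ_mem, fun h => absurd h ht⟩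
  choose N hN hNu using hNex
  -- all solutions are on the branches
  have hcomp := compactness hF hab' (fun a b v => N ((a, b), v)) (fun a b v => hN ((a, b), v))
  have hNu' : ∀ᶠ ε in 𝓝[>] (0 : ℝ), ∀ t ∈ TT F a' b', ∀ V ∈ Sol (pert F ε) a' b',
        pl V.1 V.2 t.1.1 t.1.2 ≠ 0 → chart t.1.1 t.1.2 V ∈ N t → V = β t ε := by
    rw [Filter.eventually_all_finite hTfin]
    intro t ht
    exact hNu t ht
  have hmem : ∀ᶠ ε in 𝓝[>] (0 : ℝ), ∀ t ∈ TT F a' b', β t ε ∈ Sol (pert F ε) a' b' := by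
    rw [Filter.eventually_all_finite hTfin]
    intro t ht
    exact (hβ t ht).mem
  have hndb : ∀ᶠ ε in 𝓝[>] (0 : ℝ), ∀ t ∈ TT F a' b', ND a' b' (β t ε) := by
    rw [Filter.eventually_all_finite hTfin]
    intro t ht
    exact (hβ t ht).nd
  have hinj : ∀ᶠ ε in 𝓝[>] (0 : ℝ), ∀ t ∈ TT F a' b', ∀ t' ∈ TT F a' b', t ≠ t' →
      β t ε ≠ β t' ε := by
    rw [Filter.eventually_all_finite hTfin]
    intro t ht
    rw [Filter.eventually_all_finite hTfin]
    intro t' ht'
    by_cases htt : t = t'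
    · exact Filter.Eventually.of_forall fun ε h => absurd htt h
    have hl := (hβ t ht).lim
    have hl' := (hβ t' ht').lim
    by_cases hty : t.1 = t'.1
    · -- same type
      rw [← hty] at hl'
      have hv : t.2 ≠ t'.2 := fun h => htt (Prod.ext hty h)
      have hne : ∀ᶠ ε in 𝓝[>] (0 : ℝ), chart t.1.1 t.1.2 (β t ε) ≠ chart t.1.1 t.1.2 (β t' ε) := by
        obtain ⟨U, U', hU, hU', hvU, hvU', hdis⟩ := t2_separation hv
        filter_upwards [hl.eventually (hU.mem_nhds hvU), hl'.eventually (hU'.mem_nhds hvU')]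
          with ε h1 h2 h3
        rw [h3] at h1
        exact (Set.disjoint_left.1 hdis) h1 h2
      filter_upwards [hne] with ε h1 _ h2
      exact h1 (by rw [h2])
    · -- different types
      obtain ⟨⟨a, b⟩, v⟩ := t
      obtain ⟨⟨c, d⟩, v'⟩ := t'
      obtain ⟨hab, hup, hv⟩ := ht
      obtain ⟨hcd, hup', hv'⟩ := ht'
      simp only at hab hup hv hcd hup' hv' hl hl' hty ⊢
      have hs1 := Sol.sum_eq hF hab hv
      have hs2 := Sol.sum_eq hF hcd hv'
      have habN : (a : ℕ) < b := hab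
      have hcdN : (c : ℕ) < d := hcd
      have z1 : pl v.1 v.2 c d = 0 := by
        obtain ⟨⟨h1, h2, h3, h4, h5⟩, -⟩ := hv
        apply pl_zero_of_supp v.1 v.2 a b hab h2 h4 c d hcd
        by_contra hcon
        push Not at hcon
        obtain ⟨g1, g2⟩ := hcon
        rw [Fin.le_def] at g1 g2
        apply hty
        refine Prod.ext (Fin.ext ?_) (Fin.ext ?_)
        · simp only; omega
        · simp only; omega
      have z2 : pl v'.1 v'.2 a b = 0 := by
        obtain ⟨⟨h1, h2, h3, h4, h5⟩, -⟩ := hv'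
        apply pl_zero_of_supp v'.1 v'.2 c d hcd h2 h4 a b hab
        by_contra hcon
        push Not at hcon
        obtain ⟨g1, g2⟩ := hcon
        rw [Fin.le_def] at g1 g2
        apply hty
        refine Prod.ext (Fin.ext ?_) (Fin.ext ?_)
        · simp only; omega
        · simp only; omega
      have r1 : Tendsto (fun ε => pl (chart a b (β ((a, b), v) ε)).1
          (chart a b (β ((a, b), v) ε)).2 c d) (𝓝[>] (0 : ℝ)) (𝓝 0) := by
        have := ((continuous_pl c d).tendsto v).comp hl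
        rw [z1] at this
        exact this
      have r2 : Tendsto (fun ε => pl (chart c d (β ((c, d), v') ε)).1
          (chart c d (β ((c, d), v') ε)).2 a b) (𝓝[>] (0 : ℝ)) (𝓝 0) := by
        have := ((continuous_pl a b).tendsto v').comp hl'
        rw [z2] at this
        exact this
      have r3 := r1.mul r2
      rw [mul_zero] at r3
      have r4 := r3.eventually (gt_mem_nhds (show (0 : ℝ) < 1 by norm_num))
      filter_upwards [r4, (hβ ((a, b), v) ⟨hab, hup, hv⟩).ne, (hβ ((c, d), v') ⟨hcd, hup', hv'⟩).ne]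
        with ε h1 h2 h3 _ h4
      rw [← h4] at h3 h1
      rw [pl_chart a b _ _ h2, pl_chart c d _ _ h3] at h1
      have : pl (β ((a, b), v) ε).1 (β ((a, b), v) ε).2 c d /
          pl (β ((a, b), v) ε).1 (β ((a, b), v) ε).2 a b *
          (pl (β ((a, b), v) ε).1 (β ((a, b), v) ε).2 a b /
          pl (β ((a, b), v) ε).1 (β ((a, b), v) ε).2 c d) = 1 := by
        field_simp
      rw [this] at h1
      exact lt_irrefl _ h1
  filter_upwards [hcomp, hNu', hmem, hndb, hinj] with ε h1 h2 h3 h4 h5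
  have himg : Sol (pert F ε) a' b' = (fun t => β t ε) '' TT F a' b' := by
    apply Set.Subset.antisymm
    · intro V hV
      obtain ⟨a, b, hab, haa, hbb, v, hv, hpl, hVN⟩ := h1 V hV
      have hsum := Sol.sum_eq hF hab hv
      have habN : (a : ℕ) < b := hab
      have habN' : (a' : ℕ) < b' := hab'
      have haaN : (a : ℕ) ≤ a' := haa
      have hbbN : (b : ℕ) ≤ b' := hbb
      have haev : Even (a : ℕ) := by
        by_contra hc
        rw [Nat.not_even_iff_odd] at hc
        rw [IH a b hab hsum hc] at hv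
        exact hv
      have ht : ((a, b), v) ∈ TT F a' b' := by
        refine ⟨hab, ?_, hv⟩
        simp only
        obtain ⟨r, hr⟩ := haev
        obtain ⟨r', hr'⟩ := ha'
        by_cases hca : (a' : ℕ) = a
        · left
          exact ⟨Fin.ext hca, by omega⟩
        · right
          exact ⟨by omega, Fin.ext (by omega)⟩
      exact ⟨((a, b), v), ht, (h2 _ ht V hV hpl hVN).symm⟩
    · rintro V ⟨t, ht, rfl⟩
      exact h3 t ht
  have hinjOn : Set.InjOn (fun t => β t ε) (TT F a' b') := by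
    intro t ht t' ht' he
    by_contra hne
    exact h5 t ht t' ht' hne he
  refine ⟨?_, ?_, ?_⟩
  · rw [himg]; exact hTfin.image _
  · rw [himg]; exact hinjOn.ncard_image
  · intro V hV
    rw [himg] at hV
    obtain ⟨t, ht, rfl⟩ := hV
    exact h4 t ht

end Pool.Agent.H93W
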