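import Mathlib
import Pool.Agent.H93W.StepC

/-!
# The induction: real pencils over `t (1 + ε₁ t²) ⋯ (1 + ε_j t²)` and ballot numbers
-/

set_option autoImplicit false

namespace Pool.Agent.H93W

open Finset Filter Topology Polynomial

variable {n : ℕ}

/-- ballot numbers -/
def bal (i l : ℕ) : ℤ :=
  ((i + l - 1).choose i : ℤ) - (if i = 0 then 0 else ((i + l - 1).choose (i - 1) : ℤ))

lemma bal_zero (l : ℕ) : bal 0 l = 1 := by
  simp [bal]

lemma bal_diag (i : ℕ) (hi : 1 ≤ i) : bal i i = 0 := by
  obtain ⟨k, rfl⟩ : ∃ k, i = k + 1 := ⟨i - 1, by omega⟩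
  simp only [bal, Nat.add_sub_cancel, Nat.succ_ne_zero, if_false]
  have e : k + 1 + (k + 1) - 1 = 2 * k + 1 := by omega
  rw [e]
  have := Nat.choose_symm_half k
  rw [this]
  ring

lemma bal_rec (i l : ℕ) (hi : 1 ≤ i) (hl : 1 ≤ l) : bal i (l + 1) = bal (i - 1) (l + 1) + bal i l := by
  obtain ⟨k, rfl⟩ : ∃ k, i = k + 1 := ⟨i - 1, by omega⟩
  obtain ⟨q, rfl⟩ : ∃ q, l = q + 1 := ⟨l - 1, by omega⟩
  simp only [bal, Nat.add_sub_cancel, Nat.succ_ne_zero, if_false]
  have e1 : k + 1 + (q + 1 + 1) - 1 = (k + q + 1) + 1 := by omega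
  have e2 : k + (q + 1 + 1) - 1 = k + q + 1 := by omega
  have e3 : k + 1 + (q + 1) - 1 = k + q + 1 := by omega
  rw [e1, e2, e3]
  rcases Nat.eq_zero_or_pos k with hk | hk
  · subst hk
    simp
    ring
  · obtain ⟨r, rfl⟩ : ∃ r, k = r + 1 := ⟨k - 1, by omega⟩
    simp only [Nat.add_sub_cancel, Nat.succ_ne_zero, if_false]
    rw [Nat.choose_succ_succ (r + 1 + q + 1) (r + 1), Nat.choose_succ_succ (r + 1 + q + 1) r]
    push_cast
    ring

lemma bal_catalan (m : ℕ) : bal m (m + 1) = (catalan m : ℤ) := by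
  rcases Nat.eq_zero_or_pos m with hm | hm
  · subst hm; simp [bal]
  · obtain ⟨k, rfl⟩ : ∃ k, m = k + 1 := ⟨m - 1, by omega⟩
    simp only [bal, Nat.add_sub_cancel, Nat.succ_ne_zero, if_false]
    have e : k + 1 + (k + 1 + 1) - 1 = 2 * (k + 1) := by omega
    rw [e]
    have h1 := succ_mul_catalan_eq_centralBinom (k + 1)
    rw [Nat.centralBinom_eq_two_mul_choose] at h1
    -- (k + 2) C(2k+2, k) = (k + 1) C(2k+2, k+1)
    have h3 : (2 * (k + 1)).choose (k + 1) * (k + 1) = (2 * (k + 1)).choose k * (2 * (k + 1) - k) := by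
      exact Nat.choose_succ_right_eq (2 * (k + 1)) k
    have e4 : 2 * (k + 1) - k = k + 2 := by omega
    rw [e4] at h3
    have h5 : ((k : ℤ) + 1 + 1) * (catalan (k + 1) : ℤ) = ((2 * (k + 1)).choose (k + 1) : ℤ) := by
      exact_mod_cast h1
    have h6 : ((2 * (k + 1)).choose (k + 1) : ℤ) * ((k : ℤ) + 1)
        = ((2 * (k + 1)).choose k : ℤ) * ((k : ℤ) + 2) := by exact_mod_cast h3
    have h7 : ((k : ℤ) + 2) ≠ 0 := by positivity
    apply mul_left_cancel₀ h7
    linear_combination -h5 + h6

/-- the types below an even type -/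
lemma ncard_TT {F : ℕ → ℝ} {j : ℕ}
    (IHfin : ∀ a b : Fin n, a < b → (a : ℕ) + b = 2 * j + 2 → (Sol F a b).Finite)
    (IHc : ∀ a b : Fin n, a < b → (a : ℕ) + b = 2 * j + 2 → Even (a : ℕ) →
      ((Sol F a b).ncard : ℤ) = bal ((a : ℕ) / 2) ((b : ℕ) / 2))
    {a' b' : Fin n} (hab' : a' < b') (hs' : (a' : ℕ) + b' = 2 * j + 4) (ha' : Even (a' : ℕ)) :
    ((TT F a' b').ncard : ℤ) = bal ((a' : ℕ) / 2) ((b' : ℕ) / 2) := by
  classical
  have habN' : (a' : ℕ) < b' := hab'
  obtain ⟨i, hi⟩ := ha'
  obtain ⟨l, hl⟩ : ∃ l, (b' : ℕ) = l + l := ⟨j + 2 - i, by omega⟩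
  have hil : i < l := by omega
  let b2 : Fin n := ⟨(b' : ℕ) - 2, by have := b'.2; omega⟩
  let a2 : Fin n := ⟨(a' : ℕ) - 2, by have := a'.2; omega⟩
  let S1 : Set ((Fin n × Fin n) × (Vec n × Vec n)) :=
    if a' < b2 then (fun v => ((a', b2), v)) '' Sol F a' b2 else ∅
  let S2 : Set ((Fin n × Fin n) × (Vec n × Vec n)) :=
    if 2 ≤ (a' : ℕ) then (fun v => ((a2, b'), v)) '' Sol F a2 b' else ∅
  have hunion : TT F a' b' = S1 ∪ S2 := by
    ext ⟨⟨a, b⟩, v⟩
    constructor
    · rintro ⟨h1, h2, h3⟩
      simp only at h1 h2 h3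
      rcases h2 with ⟨e1, e2⟩ | ⟨e1, e2⟩
      · left
        have hb : b = b2 := Fin.ext (by simp only [b2]; omega)
        subst e1
        subst hb
        simp only [S1, if_pos h1]
        exact ⟨v, h3, rfl⟩
      · right
        have ha : a = a2 := Fin.ext (by simp only [a2]; omega)
        subst e2
        subst ha
        have h2' : 2 ≤ (a' : ℕ) := by omega
        simp only [S2, if_pos h2']
        exact ⟨v, h3, rfl⟩
    · rintro (h | h)
      · by_cases hc : a' < b2
        · simp only [S1, if_pos hc] at h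
          obtain ⟨v', hv', he⟩ := h
          simp only [Prod.mk.injEq] at he
          obtain ⟨⟨rfl, rfl⟩, rfl⟩ := he
          refine ⟨hc, Or.inl ⟨rfl, ?_⟩, hv'⟩
          simp only [b2]; omega
        · simp only [S1, if_neg hc] at h
          exact absurd h (Set.notMem_empty _)
      · by_cases hc : 2 ≤ (a' : ℕ)
        · simp only [S2, if_pos hc] at h
          obtain ⟨v', hv', he⟩ := h
          simp only [Prod.mk.injEq] at he
          obtain ⟨⟨rfl, rfl⟩, rfl⟩ := he
          refine ⟨?_, Or.inr ⟨?_, rfl⟩, hv'⟩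
          · rw [Fin.lt_def]; simp only [a2]; omega
          · simp only [a2]; omega
        · simp only [S2, if_neg hc] at h
          exact absurd h (Set.notMem_empty _)
  have hdis : Disjoint S1 S2 := by
    rw [Set.disjoint_left]
    rintro ⟨⟨a, b⟩, v⟩ h1 h2
    by_cases hc : a' < b2
    · by_cases hc' : 2 ≤ (a' : ℕ)
      · simp only [S1, if_pos hc] at h1
        simp only [S2, if_pos hc'] at h2
        obtain ⟨v1, -, he1⟩ := h1
        obtain ⟨v2, -, he2⟩ := h2
        simp only [Prod.mk.injEq] at he1 he2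
        have : (b2 : ℕ) = b' := by
          rw [he1.1.2, ← he2.1.2]
        simp only [b2] at this
        omega
      · simp only [S2, if_neg hc'] at h2
        exact absurd h2 (Set.notMem_empty _)
    · simp only [S1, if_neg hc] at h1
      exact absurd h1 (Set.notMem_empty _)
  have hfin1 : S1.Finite := by
    simp only [S1]
    split_ifs with hc
    · refine (IHfin a' b2 hc ?_).image _
      simp only [b2]; omega
    · exact Set.finite_empty
  have hfin2 : S2.Finite := by
    simp only [S2]
    split_ifs with hc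
    · refine (IHfin a2 b' ?_ ?_).image _
      · rw [Fin.lt_def]; simp only [a2]; omega
      · simp only [a2]; omega
    · exact Set.finite_empty
  have hc1 : (S1.ncard : ℤ) = if a' < b2 then bal i (l - 1) else 0 := by
    simp only [S1]
    split_ifs with hc
    · rw [Set.ncard_image_of_injective _ (fun v v' h => by simpa using h), IHc a' b2 hc]
      · congr 1
        · omega
        · simp only [b2]; omega
      · simp only [b2]; omega
      · exact ⟨i, hi⟩
    · simp
  have hc2 : (S2.ncard : ℤ) = if 2 ≤ (a' : ℕ) then bal (i - 1) l else 0 := by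
    simp only [S2]
    split_ifs with hc
    · rw [Set.ncard_image_of_injective _ (fun v v' h => by simpa using h), IHc a2 b']
      · congr 1
        · simp only [a2]; omega
        · omega
      · rw [Fin.lt_def]; simp only [a2]; omega
      · simp only [a2]; omega
      · refine ⟨i - 1, ?_⟩
        simp only [a2]; omega
    · simp
  rw [hunion, Set.ncard_union_eq hdis hfin1 hfin2]
  push_cast
  rw [hc1, hc2]
  have e1 : (a' : ℕ) / 2 = i := by omega
  have e2 : (b' : ℕ) / 2 = l := by omega
  rw [e1, e2]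
  have hb2iff : a' < b2 ↔ i < l - 1 := by
    rw [Fin.lt_def]; simp only [b2]; omega
  obtain ⟨q, rfl⟩ : ∃ q, l = q + 1 := ⟨l - 1, by omega⟩
  have hq : 1 ≤ q := by omega
  simp only [Nat.add_sub_cancel] at hb2iff ⊢
  rcases Nat.eq_zero_or_pos i with h0 | h0
  · subst h0
    rw [if_pos (hb2iff.2 (by omega)), if_neg (by omega), bal_zero, bal_zero]
    norm_num
  · rw [if_pos (show 2 ≤ (a' : ℕ) by omega), bal_rec i q h0 hq]
    by_cases hlt : i < q
    · rw [if_pos (hb2iff.2 hlt)]; ring
    · have : i = q := by omega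
      subst this
      rw [if_neg (fun h => hlt (hb2iff.1 h)), bal_diag i h0]; ring

/-- the state of the induction after `j` steps -/
structure Stage (n j : ℕ) (f : ℝ[X]) : Prop where
  good : Good f.coeff (2 * j + 1)
  sep : f.Separable
  cop : ∀ᶠ ε in 𝓝[>] (0 : ℝ), IsCoprime f (1 + C ε * X ^ 2)
  odd : ∀ a b : Fin n, a < b → (a : ℕ) + b = 2 * j + 2 → Odd (a : ℕ) → Sol f.coeff a b = ∅
  fin : ∀ a b : Fin n, a < b → (a : ℕ) + b = 2 * j + 2 → (Sol f.coeff a b).Finite
  nd : ∀ a b : Fin n, a < b → ∀ v ∈ Sol f.coeff a b, ND a b v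
  card : ∀ a b : Fin n, a < b → (a : ℕ) + b = 2 * j + 2 → Even (a : ℕ) →
      ((Sol f.coeff a b).ncard : ℤ) = bal ((a : ℕ) / 2) ((b : ℕ) / 2)

lemma coeff_pert (f : ℝ[X]) (ε : ℝ) : (f * (1 + C ε * X ^ 2)).coeff = pert f.coeff ε := by
  ext s
  have : f * (1 + C ε * X ^ 2) = f + C ε * (f * X ^ 2) := by ring
  rw [this, coeff_add, coeff_C_mul, coeff_mul_X_pow']
  rfl

lemma coprime_quad {c d : ℝ} (h : c ≠ d) :
    IsCoprime (1 + C c * X ^ 2 : ℝ[X]) (1 + C d * X ^ 2) := by
  have hcd : c - d ≠ 0 := sub_ne_zero.2 h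
  refine ⟨C (-(d / (c - d))), C (c / (c - d)), ?_⟩
  have e1 : C (-(d / (c - d))) * (1 + C c * X ^ 2) + C (c / (c - d)) * (1 + C d * X ^ 2)
      = C (-(d / (c - d)) + c / (c - d))
        + C (-(d / (c - d)) * c + c / (c - d) * d) * X ^ 2 := by
    simp only [C_add, C_mul]; ring
  rw [e1]
  have e2 : -(d / (c - d)) + c / (c - d) = 1 := by field_simp; ring
  have e3 : -(d / (c - d)) * c + c / (c - d) * d = 0 := by ring
  rw [e2, e3]; simp

lemma separable_quad (c : ℝ) : (1 + C c * X ^ 2 : ℝ[X]).Separable := by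
  refine ⟨1, C (-(1 / 2)) * X, ?_⟩
  have : derivative (1 + C c * X ^ 2 : ℝ[X]) = C (2 * c) * X := by
    rw [derivative_add, derivative_one, derivative_C_mul, derivative_X_pow, C_mul]
    have e2 : (C (2 : ℝ) : ℝ[X]) = 2 := map_ofNat C 2
    simp only [Nat.cast_ofNat, e2]
    ring
  rw [this]
  have e : (1 : ℝ[X]) * (1 + C c * X ^ 2) + C (-(1 / 2)) * X * (C (2 * c) * X)
      = 1 + C (c + -(1 / 2) * (2 * c)) * X ^ 2 := by
    simp only [C_add, C_mul]; ring
  rw [e]
  have : c + -(1 / 2) * (2 * c) = 0 := by ring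
  rw [this]; simp

theorem stage_succ {j : ℕ} {f : ℝ[X]} (h : Stage n j f) : ∃ g : ℝ[X], Stage n (j + 1) g := by
  have hD : Odd (2 * j + 1) := ⟨j, rfl⟩
  have hpos : ∀ᶠ ε in 𝓝[>] (0 : ℝ), 0 < ε := eventually_mem_nhdsWithin
  have hodd : ∀ᶠ ε in 𝓝[>] (0 : ℝ), ∀ a b : Fin n, a < b → (a : ℕ) + b = 2 * j + 4 →
      Odd (a : ℕ) → Sol (pert f.coeff ε) a b = ∅ := by
    rw [Filter.eventually_all]
    intro a
    rw [Filter.eventually_all]
    intro b
    by_cases hc : a < b ∧ (a : ℕ) + b = 2 * j + 4 ∧ Odd (a : ℕ)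
    · filter_upwards [odd_empty h.good hD h.odd hc.1 (by omega) hc.2.2] with ε hε _ _ _
      exact hε
    · exact Filter.Eventually.of_forall fun ε h1 h2 h3 => absurd ⟨h1, h2, h3⟩ hc
  have heven : ∀ᶠ ε in 𝓝[>] (0 : ℝ), ∀ a b : Fin n, a < b → (a : ℕ) + b = 2 * j + 4 →
      Even (a : ℕ) → (Sol (pert f.coeff ε) a b).Finite ∧
      (Sol (pert f.coeff ε) a b).ncard = (TT f.coeff a b).ncard ∧
      ∀ v ∈ Sol (pert f.coeff ε) a b, ND a b v := by
    rw [Filter.eventually_all]
    intro a
    rw [Filter.eventually_all]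
    intro b
    by_cases hc : a < b ∧ (a : ℕ) + b = 2 * j + 4 ∧ Even (a : ℕ)
    · filter_upwards [even_step h.good hD h.odd h.fin h.nd hc.1 (by omega) hc.2.2] with ε hε _ _ _
      exact hε
    · exact Filter.Eventually.of_forall fun ε h1 h2 h3 => absurd ⟨h1, h2, h3⟩ hc
  obtain ⟨ε, hε0, ho, he, hcop⟩ := (hpos.and (hodd.and (heven.and h.cop))).exists
  refine ⟨f * (1 + C ε * X ^ 2), ?_⟩
  have hgood : Good (pert f.coeff ε) (2 * (j + 1) + 1) := by
    have := h.good.pert (by omega) hε0
    have e : 2 * j + 1 + 2 = 2 * (j + 1) + 1 := by ring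
    rw [e] at this
    exact this
  refine ⟨?_, ?_, ?_, ?_, ?_, ?_, ?_⟩
  · rw [coeff_pert]; exact hgood
  · exact h.sep.mul (separable_quad ε) hcop
  · have hlt : ∀ᶠ ε' in 𝓝[>] (0 : ℝ), ε' < ε :=
      (nhdsWithin_le_nhds : 𝓝[>] (0 : ℝ) ≤ 𝓝 0) (gt_mem_nhds hε0)
    filter_upwards [h.cop, hlt] with ε' h1 h2
    exact IsCoprime.mul_left h1 (coprime_quad h2.ne')
  · intro a b hab hs ha
    rw [coeff_pert]
    exact ho a b hab (by omega) ha
  · intro a b hab hs
    rw [coeff_pert]
    rcases Nat.even_or_odd (a : ℕ) with ha | ha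
    · exact (he a b hab (by omega) ha).1
    · rw [ho a b hab (by omega) ha]; exact Set.finite_empty
  · intro a b hab v hv
    rw [coeff_pert] at hv
    have hs := Sol.sum_eq hgood hab hv
    rcases Nat.even_or_odd (a : ℕ) with ha | ha
    · exact (he a b hab (by omega) ha).2.2 v hv
    · rw [ho a b hab (by omega) ha] at hv
      exact absurd hv (Set.notMem_empty _)
  · intro a b hab hs ha
    rw [coeff_pert, (he a b hab (by omega) ha).2.1]
    exact ncard_TT h.fin h.card hab (by omega) ha

/-- coordinate vectors -/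
noncomputable def ev (a : Fin n) : Vec n := Pi.single a 1

lemma ev_self (a : Fin n) : ev a a = 1 := by simp [ev]

lemma ev_ne {a i : Fin n} (h : i ≠ a) : ev a i = 0 := by simp [ev, h]

lemma W_ev (a b : Fin n) (s : ℕ) : W (ev a) (ev b) s =
    if (a : ℕ) + b = s + 1 then (((b : ℕ) : ℝ) - ((a : ℕ) : ℝ)) else 0 := by
  unfold W
  rw [Finset.sum_eq_single a]
  · rw [Finset.sum_eq_single b]
    · rw [ev_self, ev_self]; simp
    · intro j _ hj
      rw [ev_ne hj]; simp
    · simp
  · intro i _ hi
    apply Finset.sum_eq_zero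
    intro j _
    rw [ev_ne hi]; simp
  · simp

theorem stage_zero : Stage n 0 (X : ℝ[X]) := by
  have hgood : Good (X : ℝ[X]).coeff (2 * 0 + 1) := by
    refine ⟨by simp, ?_, ?_⟩
    · intro s hs
      rw [coeff_X]
      rw [if_neg (by omega)]
    · intro s hs
      rw [coeff_X]
      rw [if_neg (by omega)]
  -- the unique solution
  have hsol : ∀ a b : Fin n, a < b → (a : ℕ) + b = 2 →
      Sol (X : ℝ[X]).coeff a b = {(ev a, ev b)} := by
    intro a b hab hs
    have habN : (a : ℕ) < b := hab
    have ha0 : (a : ℕ) = 0 := by omega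
    have hb2 : (b : ℕ) = 2 := by omega
    ext v
    constructor
    · rintro ⟨⟨h1, h2, h3, h4, h5⟩, c, hc, hW⟩
      have hq : v.1 = ev a := by
        ext i
        by_cases hi : i = a
        · rw [hi, h1, ev_self]
        · rw [ev_ne hi]
          apply h2
          rw [Fin.lt_def]
          have : (i : ℕ) ≠ a := fun h => hi (Fin.ext h)
          omega
      let m1 : Fin n := ⟨1, by have := b.2; omega⟩
      have hp : v.2 = ev b + v.2 m1 • ev m1 := by
        ext i
        simp only [Pi.add_apply, Pi.smul_apply, smul_eq_mul]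
        by_cases hi : i = b
        · rw [hi, h3, ev_self, ev_ne (show b ≠ m1 from fun h => by
            have := congrArg Fin.val h
            simp only [m1] at this
            omega)]
          ring
        · rw [ev_ne hi]
          by_cases hi1 : i = m1
          · rw [hi1, ev_self]; ring
          · rw [ev_ne hi1, mul_zero, add_zero]
            by_cases hi0 : i = a
            · rw [hi0, h5]
            · apply h4
              rw [Fin.lt_def]
              have e1 : (i : ℕ) ≠ a := fun h => hi0 (Fin.ext h)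
              have e2 : (i : ℕ) ≠ b := fun h => hi (Fin.ext h)
              have e3 : (i : ℕ) ≠ 1 := fun h => hi1 (Fin.ext h)
              omega
      have h0 := hW 0
      rw [hq, hp, W_add_right, W_smul_right, W_ev, W_ev, coeff_X, if_neg (by omega),
        if_pos (by simp only [m1]; omega), if_neg (by omega)] at h0
      have hz : v.2 m1 = 0 := by
        have e : (((m1 : Fin n) : ℕ) : ℝ) - ((a : ℕ) : ℝ) = 1 := by
          rw [ha0]; simp [m1]
        rw [e] at h0
        linarith
      rw [Set.mem_singleton_iff]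
      refine Prod.ext hq ?_
      rw [hp, hz]
      simp
    · rintro rfl
      refine ⟨⟨ev_self a, ?_, ev_self b, ?_, ev_ne hab.ne⟩, 2, by norm_num, ?_⟩
      · intro i hi
        exact ev_ne hi.ne'
      · intro i hi
        exact ev_ne hi.ne'
      · intro s
        rw [W_ev, coeff_X]
        by_cases hs1 : 1 = s
        · subst hs1
          rw [if_pos (by omega), if_pos rfl, ha0, hb2]; norm_num
        · rw [if_neg (by omega), if_neg hs1]; norm_num
  refine ⟨hgood, separable_X, ?_, ?_, ?_, ?_, ?_⟩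
  · refine Filter.Eventually.of_forall fun ε => ?_
    exact ⟨-(C ε * X), 1, by ring⟩
  · intro a b hab hs ha
    have habN : (a : ℕ) < b := hab
    obtain ⟨r, hr⟩ := ha
    omega
  · intro a b hab hs
    rw [hsol a b hab (by omega)]
    exact Set.finite_singleton _
  · intro a b hab v hv
    have hs := Sol.sum_eq hgood hab hv
    rw [hsol a b hab (by omega)] at hv
    rw [Set.mem_singleton_iff] at hv
    subst hv
    have habN : (a : ℕ) < b := hab
    have ha0 : (a : ℕ) = 0 := by omega
    have hb2 : (b : ℕ) = 2 := by omega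
    let m1 : Fin n := ⟨1, by have := b.2; omega⟩
    intro x y c hx hy hW
    simp only at hW ⊢
    have hxe : x = x a • ev a := by
      ext i
      simp only [Pi.smul_apply, smul_eq_mul]
      by_cases hi : i = a
      · rw [hi, ev_self]; ring
      · rw [ev_ne hi, mul_zero]
        apply hx
        rw [Fin.lt_def]
        have : (i : ℕ) ≠ a := fun h => hi (Fin.ext h)
        omega
    have hye : y = y a • ev a + y b • ev b + y m1 • ev m1 := by
      ext i
      simp only [Pi.add_apply, Pi.smul_apply, smul_eq_mul]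
      by_cases hi0 : i = a
      · rw [hi0, ev_self, ev_ne hab.ne, ev_ne (show a ≠ m1 from fun h => by
            have := congrArg Fin.val h
            simp only [m1] at this
            omega)]
        ring
      · by_cases hi : i = b
        · rw [hi, ev_self, ev_ne hab.ne', ev_ne (show b ≠ m1 from fun h => by
            have := congrArg Fin.val h
            simp only [m1] at this
            omega)]
          ring
        · by_cases hi1 : i = m1
          · rw [hi1, ev_self, ev_ne (show m1 ≠ a from fun h => by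
              have := congrArg Fin.val h
              simp only [m1] at this
              omega), ev_ne (show m1 ≠ b from fun h => by
              have := congrArg Fin.val h
              simp only [m1] at this
              omega)]
            ring
          · rw [ev_ne hi0, ev_ne hi, ev_ne hi1]
            have : y i = 0 := by
              apply hy
              rw [Fin.lt_def]
              have e1 : (i : ℕ) ≠ a := fun h => hi0 (Fin.ext h)
              have e2 : (i : ℕ) ≠ b := fun h => hi (Fin.ext h)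
              have e3 : (i : ℕ) ≠ 1 := fun h => hi1 (Fin.ext h)
              omega
            rw [this]; ring
    refine ⟨⟨x a, hxe⟩, ⟨y a, y b, ?_⟩⟩
    have h0 := hW 0
    rw [hxe, hye, W_smul_left, W_add_right, W_add_right, W_smul_right, W_smul_right, W_smul_right,
      W_self, W_ev, W_ev, if_neg (by omega), if_pos (by simp only [m1]; omega)] at h0
    have hz : y m1 = 0 := by
      have e : (((m1 : Fin n) : ℕ) : ℝ) - ((a : ℕ) : ℝ) = 1 := by
        rw [ha0]; simp [m1]
      rw [e] at h0
      linarith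
    conv_lhs => rw [hye, hz]
    simp
  · intro a b hab hs ha
    have habN : (a : ℕ) < b := hab
    rw [hsol a b hab (by omega), Set.ncard_singleton]
    have ha0 : (a : ℕ) = 0 := by omega
    rw [ha0]
    simp [bal_zero]

theorem exists_stage (n j : ℕ) : ∃ f : ℝ[X], Stage n j f := by
  induction j with
  | zero => exact ⟨X, stage_zero⟩
  | succ j ih =>
    obtain ⟨f, hf⟩ := ih
    exact stage_succ hf

end Pool.Agent.H93W
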