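import Mathlib
import Pool.Agent.H93W.Defs
import Pool.Agent.H93W.Induct

/-!
# From pairs of coefficient vectors to points of the Grassmannian
-/

set_option autoImplicit false

namespace Pool.Agent.H93W

open Finset Filter Topology Polynomial

variable {n : ℕ}

/-- the polynomial with given coefficients -/
noncomputable def toP : Vec n →ₗ[ℝ] ℝ[X] where
  toFun u := ∑ i : Fin n, C (u i) * X ^ (i : ℕ)
  map_add' u w := by
    simp only [Pi.add_apply, C_add, add_mul, Finset.sum_add_distrib]
  map_smul' c u := by
    simp only [Pi.smul_apply, smul_eq_mul, C_mul, RingHom.id_apply, Finset.smul_sum,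
      smul_eq_C_mul, mul_assoc]

lemma toP_apply (u : Vec n) : toP u = ∑ i : Fin n, C (u i) * X ^ (i : ℕ) := rfl

lemma toP_coeff (u : Vec n) (i : Fin n) : (toP u).coeff i = u i := by
  rw [toP_apply, finsetSum_coeff, Finset.sum_eq_single i]
  · simp
  · intro j _ hj
    rw [coeff_C_mul_X_pow, if_neg]
    intro h
    exact hj (Fin.ext h.symm)
  · simp

lemma toP_coeff_ge (u : Vec n) (s : ℕ) (hs : n ≤ s) : (toP u).coeff s = 0 := by
  rw [toP_apply, finsetSum_coeff]
  apply Finset.sum_eq_zero
  intro j _
  rw [coeff_C_mul_X_pow, if_neg]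
  have := j.2
  omega

lemma toP_mem (u : Vec n) : toP u ∈ degreeLT ℝ n := by
  rw [mem_degreeLT, degree_lt_iff_coeff_zero]
  intro s hs
  exact toP_coeff_ge u s hs

/-- the coefficient vector -/
def toV (p : ℝ[X]) : Vec n := fun i => p.coeff i

lemma toP_toV (p : ℝ[X]) (hp : p ∈ degreeLT ℝ n) : toP (toV p : Vec n) = p := by
  ext s
  by_cases hs : s < n
  · have := toP_coeff (toV p : Vec n) ⟨s, hs⟩
    simpa [toV] using this
  · rw [toP_coeff_ge _ _ (not_lt.1 hs)]
    rw [mem_degreeLT, degree_lt_iff_coeff_zero] at hp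
    exact (hp s (not_lt.1 hs)).symm

lemma toP_inj : Function.Injective (toP : Vec n → ℝ[X]) := by
  intro u w h
  ext i
  rw [← toP_coeff u i, h, toP_coeff w i]

lemma coeff_wr (u w : Vec n) (s : ℕ) :
    (toP u * derivative (toP w) - derivative (toP u) * toP w).coeff s = W u w s := by
  have hd : ∀ w : Vec n, derivative (toP w)
      = ∑ j : Fin n, C (w j * ((j : ℕ) : ℝ)) * X ^ ((j : ℕ) - 1) := by
    intro w
    rw [toP_apply, derivative_sum]
    refine Finset.sum_congr rfl fun j _ => ?_
    rw [derivative_C_mul_X_pow]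
  rw [hd, hd, toP_apply, toP_apply, Finset.sum_mul_sum, Finset.sum_mul_sum, coeff_sub,
    finsetSum_coeff, finsetSum_coeff, ← Finset.sum_sub_distrib]
  unfold W
  refine Finset.sum_congr rfl fun i _ => ?_
  rw [finsetSum_coeff, finsetSum_coeff, ← Finset.sum_sub_distrib]
  refine Finset.sum_congr rfl fun j _ => ?_
  have e1 : C (u i) * X ^ (i : ℕ) * (C (w j * ((j : ℕ) : ℝ)) * X ^ ((j : ℕ) - 1))
      = C (u i * (w j * ((j : ℕ) : ℝ))) * X ^ ((i : ℕ) + ((j : ℕ) - 1)) := by
    rw [C_mul (a := u i), pow_add]; ring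
  have e2 : C (u i * ((i : ℕ) : ℝ)) * X ^ ((i : ℕ) - 1) * (C (w j) * X ^ (j : ℕ))
      = C (u i * ((i : ℕ) : ℝ) * w j) * X ^ (((i : ℕ) - 1) + (j : ℕ)) := by
    rw [C_mul (a := u i * ((i : ℕ) : ℝ)), pow_add]; ring
  have t1 : (if s = (i : ℕ) + ((j : ℕ) - 1) then u i * (w j * ((j : ℕ) : ℝ)) else 0)
      = if (i : ℕ) + j = s + 1 then ((j : ℕ) : ℝ) * (u i * w j) else 0 := by
    rcases Nat.eq_zero_or_pos (j : ℕ) with hj | hj
    · rw [hj]; simp
    · have c1 : (s = (i : ℕ) + ((j : ℕ) - 1)) ↔ ((i : ℕ) + j = s + 1) := by omega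
      simp only [c1]
      split_ifs
      · ring
      · rfl
  have t2 : (if s = ((i : ℕ) - 1) + (j : ℕ) then u i * ((i : ℕ) : ℝ) * w j else 0)
      = if (i : ℕ) + j = s + 1 then ((i : ℕ) : ℝ) * (u i * w j) else 0 := by
    rcases Nat.eq_zero_or_pos (i : ℕ) with hj | hj
    · rw [hj]; simp
    · have c1 : (s = ((i : ℕ) - 1) + (j : ℕ)) ↔ ((i : ℕ) + j = s + 1) := by omega
      simp only [c1]
      split_ifs
      · ring
      · rfl
  rw [e1, e2, coeff_C_mul_X_pow, coeff_C_mul_X_pow, t1, t2]
  split_ifs
  · ring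
  · simp

lemma wr_two (b : Fin 2 → ℝ[X]) : wr b = b 0 * derivative (b 1) - derivative (b 0) * b 1 := by
  unfold wr
  rw [Matrix.det_fin_two]
  simp
  ring

lemma exists_pl_of_W (u w : Vec n) (s : ℕ) (h : W u w s ≠ 0) : ∃ i j, pl u w i j ≠ 0 := by
  by_contra hc
  push Not at hc
  apply h
  have h1 : W u w s = W w u s := by
    unfold W
    refine Finset.sum_congr rfl fun i _ => Finset.sum_congr rfl fun j _ => ?_
    have := hc i j
    simp only [pl] at this
    split_ifs
    · have e : u i * w j = w i * u j := by linarith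
      rw [e]
    · rfl
  have h2 := W_antisymm u w s
  linarith

/-- the plane spanned by a pair -/
noncomputable def planeOf (v : Vec n × Vec n) : Submodule ℝ ℝ[X] :=
  Submodule.span ℝ {toP v.1, toP v.2}

theorem realFibre_two {f : ℝ[X]} {D : ℕ} (hf : Good f.coeff D) {a b : Fin n} (hab : a < b)
    (huniq : ∀ a' b' : Fin n, a' < b' → (a' : ℕ) + b' = D + 1 → a' = a ∧ b' = b) :
    realFibre 2 n f = planeOf '' Sol f.coeff a b ∧ Set.InjOn planeOf (Sol f.coeff a b) := by
  have hf0 : f ≠ 0 := by
    intro h
    have := hf.pos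
    rw [h] at this
    simp at this
  constructor
  · apply Set.Subset.antisymm
    · rintro V ⟨hV1, hV2, bs, c, hc, hwr⟩
      rw [wr_two] at hwr
      set u : Vec n := toV (bs 0 : ℝ[X]) with hu
      set w : Vec n := toV (bs 1 : ℝ[X]) with hw
      have hu' : toP u = (bs 0 : ℝ[X]) := toP_toV _ (hV1 (bs 0).2)
      have hw' : toP w = (bs 1 : ℝ[X]) := toP_toV _ (hV1 (bs 1).2)
      have hW : ∀ s, W u w s = c * f.coeff s := by
        intro s
        rw [← coeff_wr, hu', hw', hwr, coeff_C_mul]
      have hex : ∃ i j, pl u w i j ≠ 0 := by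
        apply exists_pl_of_W u w D
        rw [hW]
        exact mul_ne_zero hc hf.pos.ne'
      obtain ⟨a', b', hab', hpl, hcell⟩ := exists_cell u w hex
      have hsol : chart a' b' (u, w) ∈ Sol f.coeff a' b' := by
        refine ⟨hcell, c / pl u w a' b', div_ne_zero hc hpl, ?_⟩
        intro s
        rw [W_chart a' b' u w hpl, hW]; ring
      have hs := Sol.sum_eq hf hab' hsol
      obtain ⟨rfl, rfl⟩ := huniq a' b' hab' hs
      refine ⟨chart a' b' (u, w), hsol, ?_⟩
      have hspan : V = Submodule.span ℝ {toP u, toP w} := by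
        have h1 := bs.span_eq
        have h2 : (Submodule.span ℝ (Set.range bs)).map V.subtype = V := by
          rw [h1]; simp
        rw [Submodule.map_span] at h2
        rw [← h2]
        congr 1
        ext x
        constructor
        · rintro ⟨y, ⟨i, rfl⟩, rfl⟩
          fin_cases i
          · left; exact hu'.symm
          · right; exact hw'.symm
        · rintro (h | h)
          · exact ⟨bs 0, ⟨0, rfl⟩, by rw [h]; exact hu'.symm⟩
          · exact ⟨bs 1, ⟨1, rfl⟩, by rw [h]; exact hw'.symm⟩
      rw [hspan]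
      unfold planeOf
      apply le_antisymm
      · rw [Submodule.span_le]
        rintro x (rfl | rfl)
        · rw [chart_fst, map_add, map_smul, map_smul]
          exact Submodule.add_mem _ (Submodule.smul_mem _ _ (Submodule.subset_span (by simp)))
            (Submodule.smul_mem _ _ (Submodule.subset_span (by simp)))
        · rw [chart_snd, map_add, map_smul, map_smul]
          exact Submodule.add_mem _ (Submodule.smul_mem _ _ (Submodule.subset_span (by simp)))
            (Submodule.smul_mem _ _ (Submodule.subset_span (by simp)))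
      · rw [Submodule.span_le]
        rintro x (rfl | rfl)
        · rw [chart_inv_fst a' b' u w hpl, map_add, map_smul, map_smul,
            ← chart_inv_fst a' b' u w hpl]
          exact Submodule.add_mem _ (Submodule.smul_mem _ _ (Submodule.subset_span (by simp)))
            (Submodule.smul_mem _ _ (Submodule.subset_span (by simp)))
        · rw [chart_inv_snd a' b' u w hpl, map_add, map_smul, map_smul,
            ← chart_inv_snd a' b' u w hpl]
          exact Submodule.add_mem _ (Submodule.smul_mem _ _ (Submodule.subset_span (by simp)))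
            (Submodule.smul_mem _ _ (Submodule.subset_span (by simp)))
    · rintro V ⟨v, hv, rfl⟩
      obtain ⟨hcell, c, hc, hW⟩ := hv
      have hind : LinearIndependent ℝ ![toP v.1, toP v.2] := by
        rw [LinearIndependent.pair_iff]
        intro s t hst
        rw [← map_smul, ← map_smul, ← map_add] at hst
        have h0 : s • v.1 + t • v.2 = 0 := toP_inj (by rw [hst, map_zero])
        obtain ⟨h1, h2, h3, h4, h5⟩ := hcell
        have ea := congrFun h0 a
        have eb := congrFun h0 b
        simp only [Pi.add_apply, Pi.smul_apply, smul_eq_mul, Pi.zero_apply, h1, h5] at ea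
        simp only [Pi.add_apply, Pi.smul_apply, smul_eq_mul, Pi.zero_apply, h2 b hab, h3] at eb
        exact ⟨by linarith, by linarith⟩
      have hrange : Set.range ![toP v.1, toP v.2] = {toP v.1, toP v.2} := by
        simp [Set.pair_comm]
      have hV : planeOf v = Submodule.span ℝ (Set.range ![toP v.1, toP v.2]) := by
        rw [hrange]; rfl
      rw [hV]
      refine ⟨?_, ?_, ?_⟩
      · rw [Submodule.span_le, hrange]
        rintro x (rfl | rfl)
        · exact toP_mem _
        · exact toP_mem _
      · have := finrank_span_eq_card hind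
        simpa using this
      · refine ⟨Module.Basis.span hind, c, hc, ?_⟩
        rw [wr_two]
        simp only [Module.Basis.span_apply]
        ext s
        rw [coeff_C_mul, ← hW s, ← coeff_wr]
        simp
  · intro v hv v' hv' he
    obtain ⟨⟨h1, h2, h3, h4, h5⟩, -⟩ := hv
    obtain ⟨⟨k1, k2, k3, k4, k5⟩, -⟩ := hv'
    simp only [planeOf] at he
    have m1 : toP v'.1 ∈ Submodule.span ℝ {toP v.1, toP v.2} := by
      rw [he]; exact Submodule.subset_span (by simp)
    have m2 : toP v'.2 ∈ Submodule.span ℝ {toP v.1, toP v.2} := by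
      rw [he]; exact Submodule.subset_span (by simp)
    rw [Submodule.mem_span_pair] at m1 m2
    obtain ⟨α, β, e1⟩ := m1
    obtain ⟨γ, δ, e2⟩ := m2
    rw [← map_smul, ← map_smul, ← map_add] at e1 e2
    have f1 := toP_inj e1
    have f2 := toP_inj e2
    have g1 := congrFun f1 a
    have g2 := congrFun f1 b
    have g3 := congrFun f2 a
    have g4 := congrFun f2 b
    simp only [Pi.add_apply, Pi.smul_apply, smul_eq_mul, h1, h5, k1] at g1
    simp only [Pi.add_apply, Pi.smul_apply, smul_eq_mul, h2 b hab, h3, k2 b hab] at g2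
    simp only [Pi.add_apply, Pi.smul_apply, smul_eq_mul, h1, h5, k5] at g3
    simp only [Pi.add_apply, Pi.smul_apply, smul_eq_mul, h2 b hab, h3, k3] at g4
    have a1 : α = 1 := by linarith
    have b1 : β = 0 := by linarith
    have c1 : γ = 0 := by linarith
    have d1 : δ = 1 := by linarith
    refine Prod.ext ?_ ?_
    · rw [← f1, a1, b1]; simp
    · rw [← f2, c1, d1]; simp

end Pool.Agent.H93W
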