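import Mathlib
import Pool.Agent.H93W.Defs

/-!
# Duality `Gr(k, n) → Gr(n - k, n)` and the Wronski map
-/

set_option autoImplicit false

namespace Pool.Agent.H93W

open Polynomial Module

/-- the pairing  sum over i < n of (-1)^i p^(i) q^(n-1-i)  -/
noncomputable def Bp (n : ℕ) (p q : ℝ[X]) : ℝ[X] :=
  ∑ i ∈ Finset.range n, C ((-1 : ℝ) ^ i) * (derivative^[i] p * derivative^[n - 1 - i] q)

lemma Bp_derivative (r : ℕ) (p h : ℝ[X]) :
    derivative (Bp (r + 1) p h) = p * derivative^[r + 1] h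
      + C ((-1 : ℝ) ^ r) * (derivative^[r + 1] p * h) := by
  set f : ℕ → ℝ[X] := fun i => C ((-1 : ℝ) ^ i) * (derivative^[i] p * derivative^[r + 1 - i] h)
    with hf
  have h1 : derivative (Bp (r + 1) p h) = ∑ i ∈ Finset.range (r + 1), (f i - f (i + 1)) := by
    rw [Bp, derivative_sum]
    apply Finset.sum_congr rfl
    intro i hi
    have hi' : i ≤ r := Nat.lt_succ_iff.1 (Finset.mem_range.1 hi)
    have e0 : r + 1 - 1 - i = r - i := by omega
    have e1 : r + 1 - i = (r - i) + 1 := by omega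
    have e2 : r + 1 - (i + 1) = r - i := by omega
    simp only [hf, e0, e1, e2]
    rw [derivative_C_mul, derivative_mul, ← Function.iterate_succ_apply' derivative i,
      ← Function.iterate_succ_apply' derivative (r - i), pow_succ (-1 : ℝ) i, C_mul, C_neg, C_1]
    ring
  rw [h1, Finset.sum_range_sub']
  simp only [hf]
  simp only [Function.iterate_zero, id, Nat.sub_zero, Nat.sub_self, pow_zero, C_1, one_mul,
    pow_succ, C_mul, C_neg]
  ring

lemma natDegree_lt_of_mem {n : ℕ} (hn : 1 ≤ n) {p : ℝ[X]} (hp : p ∈ degreeLT ℝ n) :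
    p.natDegree < n := by
  rw [mem_degreeLT] at hp
  by_cases h0 : p = 0
  · rw [h0]; simp; omega
  · exact (natDegree_lt_iff_degree_lt h0).2 hp

lemma Bp_const {n : ℕ} (hn : 1 ≤ n) {p q : ℝ[X]} (hp : p ∈ degreeLT ℝ n)
    (hq : q ∈ degreeLT ℝ n) : Bp n p q = C ((Bp n p q).coeff 0) := by
  obtain ⟨r, rfl⟩ : ∃ r, n = r + 1 := ⟨n - 1, by omega⟩
  have h1 := natDegree_lt_of_mem hn hp
  have h2 := natDegree_lt_of_mem hn hq
  have : derivative (Bp (r + 1) p q) = 0 := by
    rw [Bp_derivative, iterate_derivative_eq_zero h1, iterate_derivative_eq_zero h2]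
    simp
  exact eq_C_of_natDegree_eq_zero (derivative_eq_zero.1 this)

lemma Bp_symm (n : ℕ) (hn : 1 ≤ n) (p q : ℝ[X]) :
    Bp n q p = C ((-1 : ℝ) ^ (n - 1)) * Bp n p q := by
  unfold Bp
  rw [← Finset.sum_range_reflect, Finset.mul_sum]
  refine Finset.sum_congr rfl fun j hj => ?_
  have hj' : j < n := Finset.mem_range.1 hj
  have e1 : n - 1 - (n - 1 - j) = j := by omega
  have e2 : (-1 : ℝ) ^ (n - 1) * (-1) ^ j = (-1) ^ (n - 1 - j) := by
    have : n - 1 = (n - 1 - j) + j := by omega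
    conv_lhs => rw [this]
    rw [pow_add, mul_assoc, ← pow_add, ← two_mul, pow_mul]
    norm_num
  rw [e1, ← e2, C_mul]
  ring

lemma Bp_nondeg (r : ℕ) (h : ℝ[X]) (hh : h.natDegree ≤ r) (h0 : h ≠ 0) :
    (Bp (r + 1) (X ^ (r - h.natDegree)) h).coeff 0 ≠ 0 := by
  set k := h.natDegree with hk
  have hterm : ∀ i ∈ Finset.range (r + 1), i ≠ r - k →
      C ((-1 : ℝ) ^ i) * (derivative^[i] (X ^ (r - k) : ℝ[X]) * derivative^[r + 1 - 1 - i] h) = 0 := by
    intro i hi hne
    have hi' : i < r + 1 := Finset.mem_range.1 hi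
    rcases lt_or_gt_of_ne hne with hlt | hgt
    · rw [iterate_derivative_eq_zero (p := h) (x := r + 1 - 1 - i) (by omega)]; simp
    · rw [iterate_derivative_eq_zero (p := (X ^ (r - k) : ℝ[X])) (x := i)
        (by rw [natDegree_X_pow]; omega)]; simp
  rw [Bp, Finset.sum_eq_single (r - k) hterm
    (fun hn => absurd (Finset.mem_range.2 (by omega)) hn)]
  have e1 : r + 1 - 1 - (r - k) = k := by omega
  rw [e1, coeff_zero_eq_eval_zero]
  simp only [eval_mul, eval_C]
  refine mul_ne_zero (pow_ne_zero _ (by norm_num)) (mul_ne_zero ?_ ?_)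
  · rw [iterate_derivative_X_pow_eq_smul]
    simp only [Nat.sub_self, pow_zero, eval_smul, eval_one, Nat.descFactorial_self]
    rw [smul_eq_mul, mul_one]
    exact_mod_cast Nat.factorial_ne_zero _
  · rw [← coeff_zero_eq_eval_zero, coeff_iterate_derivative]
    simp only [zero_add, Nat.descFactorial_self, nsmul_eq_mul]
    refine mul_ne_zero (by exact_mod_cast Nat.factorial_ne_zero _) ?_
    rw [hk]
    exact fun e => h0 (leadingCoeff_eq_zero.1 e)

lemma Bp_add_left (n : ℕ) (p q h : ℝ[X]) : Bp n (p + q) h = Bp n p h + Bp n q h := by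
  simp only [Bp, ← Finset.sum_add_distrib]
  apply Finset.sum_congr rfl
  intro i _
  rw [iterate_map_add]; ring

lemma Bp_add_right (n : ℕ) (p h k : ℝ[X]) : Bp n p (h + k) = Bp n p h + Bp n p k := by
  simp only [Bp, ← Finset.sum_add_distrib]
  apply Finset.sum_congr rfl
  intro i _
  rw [iterate_map_add]; ring

lemma Bp_smul_left (n : ℕ) (a : ℝ) (p h : ℝ[X]) : Bp n (a • p) h = a • Bp n p h := by
  simp only [Bp, Finset.smul_sum]
  apply Finset.sum_congr rfl
  intro i _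
  rw [iterate_derivative_smul]
  simp only [smul_eq_C_mul]; ring

lemma Bp_smul_right (n : ℕ) (a : ℝ) (p h : ℝ[X]) : Bp n p (a • h) = a • Bp n p h := by
  simp only [Bp, Finset.smul_sum]
  apply Finset.sum_congr rfl
  intro i _
  rw [iterate_derivative_smul]
  simp only [smul_eq_C_mul]; ring

/-- the bilinear form on the polynomials of degree less than `n` -/
noncomputable def Bf (n : ℕ) : LinearMap.BilinForm ℝ (degreeLT ℝ n) :=
  LinearMap.mk₂ ℝ (fun q p : degreeLT ℝ n => (Bp n (p : ℝ[X]) (q : ℝ[X])).coeff 0)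
    (fun q q' p => by simp [Bp_add_right])
    (fun c q p => by simp [Bp_smul_right])
    (fun q p p' => by simp [Bp_add_left])
    (fun c q p => by simp [Bp_smul_left])

lemma Bf_apply (n : ℕ) (q p : degreeLT ℝ n) : Bf n q p = (Bp n (p : ℝ[X]) (q : ℝ[X])).coeff 0 :=
  rfl

lemma Bf_refl {n : ℕ} (hn : 1 ≤ n) : (Bf n).IsRefl := by
  intro q p h
  rw [Bf_apply] at h ⊢
  rw [Bp_symm n hn, coeff_C_mul, h, mul_zero]

lemma Bf_nondeg {n : ℕ} (hn : 1 ≤ n) : (Bf n).Nondegenerate := by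
  rw [LinearMap.BilinForm.Nondegenerate,
    LinearMap.IsRefl.nondegenerate_iff_separatingLeft (Bf_refl hn)]
  intro q hq
  by_contra hne
  obtain ⟨r, rfl⟩ : ∃ r, n = r + 1 := ⟨n - 1, by omega⟩
  have h0 : (q : ℝ[X]) ≠ 0 := fun h => hne (Subtype.ext h)
  have hd := natDegree_lt_of_mem hn q.2
  have hmem : (X ^ (r - (q : ℝ[X]).natDegree) : ℝ[X]) ∈ degreeLT ℝ (r + 1) := by
    rw [mem_degreeLT, degree_X_pow]
    exact_mod_cast (by omega : r - (q : ℝ[X]).natDegree < r + 1)
  exact Bp_nondeg r q (by omega) h0 (hq ⟨_, hmem⟩)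

/-- the orthogonal complement -/
noncomputable def perp (n : ℕ) (V : Submodule ℝ ℝ[X]) : Submodule ℝ ℝ[X] :=
  ((Bf n).orthogonal (V.comap (degreeLT ℝ n).subtype)).map (degreeLT ℝ n).subtype

lemma perp_le (n : ℕ) (V : Submodule ℝ ℝ[X]) : perp n V ≤ degreeLT ℝ n :=
  Submodule.map_subtype_le _ _

lemma perp_perp {n : ℕ} (hn : 1 ≤ n) {V : Submodule ℝ ℝ[X]} (hV : V ≤ degreeLT ℝ n) :
    perp n (perp n V) = V := by
  unfold perp
  rw [Submodule.comap_map_eq_of_injective (Submodule.injective_subtype _),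
    LinearMap.BilinForm.orthogonal_orthogonal (Bf_nondeg hn) (Bf_refl hn),
    Submodule.map_comap_subtype]
  exact inf_eq_right.2 hV

/-- abstract linear algebra: extend a basis of a subspace and dualize -/
theorem exists_dual_bases {M : Type*} [AddCommGroup M] [Module ℝ M] [FiniteDimensional ℝ M]
    {B : LinearMap.BilinForm ℝ M} (hB : B.Nondegenerate) (hr : B.IsRefl) {k l : ℕ} (hl : 1 ≤ l)
    (hM : finrank ℝ M = k + l) (V' : Submodule ℝ M) (b1 : Basis (Fin k) ℝ V') :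
    ∃ e q : Basis (Fin k ⊕ Fin l) ℝ M, (∀ j, e (Sum.inl j) = b1 j) ∧
      (∀ i j, B (q i) (e j) = if j = i then 1 else 0) ∧
      finrank ℝ (B.orthogonal V') = l ∧
      ∃ B2 : Basis (Fin l) ℝ (B.orthogonal V'), ∀ s, (B2 s : M) = q (Sum.inr s) := by
  classical
  have hfinV' : finrank ℝ V' = k := by rw [finrank_eq_card_basis b1, Fintype.card_fin]
  obtain ⟨C', hC⟩ := V'.exists_isCompl
  have hfinC : finrank ℝ C' = l := by
    have := Submodule.finrank_add_eq_of_isCompl hC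
    rw [hM, hfinV'] at this
    omega
  let c : Basis (Fin l) ℝ C' := finBasisOfFinrankEq ℝ C' hfinC
  let e : Basis (Fin k ⊕ Fin l) ℝ M := (b1.prod c).map (V'.prodEquivOfIsCompl C' hC)
  have he : ∀ j, (e (Sum.inl j) : M) = b1 j := by
    intro j
    simp [e]
  let q := B.dualBasis hB e
  have hq : ∀ i j, B (q i) (e j) = if j = i then 1 else 0 :=
    fun i j => LinearMap.BilinForm.apply_dualBasis_left hB e i j
  have hfinP : finrank ℝ (B.orthogonal V') = l := by
    rw [LinearMap.BilinForm.finrank_orthogonal hB, hM, hfinV']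
    omega
  have hqP : ∀ s : Fin l, q (Sum.inr s) ∈ B.orthogonal V' := by
    intro s
    rw [LinearMap.BilinForm.mem_orthogonal_iff]
    intro v hv
    show B v (q (Sum.inr s)) = 0
    apply hr
    have hv' : v ∈ Submodule.span ℝ (Set.range fun j : Fin k => (e (Sum.inl j) : M)) := by
      have h1 : (⟨v, hv⟩ : V') ∈ Submodule.span ℝ (Set.range b1) := by
        rw [b1.span_eq]; trivial
      have h2 := Submodule.mem_map_of_mem (f := V'.subtype) h1
      rw [Submodule.map_span, ← Set.range_comp] at h2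
      have h3 : (V'.subtype ∘ b1) = fun j : Fin k => (e (Sum.inl j) : M) := by
        ext1 j
        simp [he]
      rw [h3] at h2
      exact h2
    have hker : Submodule.span ℝ (Set.range fun j : Fin k => (e (Sum.inl j) : M))
        ≤ LinearMap.ker (B (q (Sum.inr s))) := by
      rw [Submodule.span_le]
      rintro x ⟨j, rfl⟩
      simp only [SetLike.mem_coe, LinearMap.mem_ker]
      rw [hq]
      simp
    exact hker hv'
  let b2 : Fin l → B.orthogonal V' := fun s => ⟨q (Sum.inr s), hqP s⟩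
  have hb2 : LinearIndependent ℝ b2 := by
    have h1 : LinearIndependent ℝ (fun s : Fin l => q (Sum.inr s)) :=
      q.linearIndependent.comp _ Sum.inr_injective
    exact LinearIndependent.of_comp (B.orthogonal V').subtype h1
  have hne : Nonempty (Fin l) := ⟨⟨0, by omega⟩⟩
  let B2 : Basis (Fin l) ℝ (B.orthogonal V') :=
    basisOfLinearIndependentOfCardEqFinrank hb2 (by rw [hfinP, Fintype.card_fin])
  have hB2 : ∀ s, ((B2 s : M)) = q (Sum.inr s) := by
    intro s
    simp [B2, b2]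
  exact ⟨e, q, he, hq, hfinP, B2, hB2⟩

lemma finrank_degreeLT (n : ℕ) : finrank ℝ (degreeLT ℝ n) = n := by
  rw [(degreeLTEquiv ℝ n).finrank_eq, finrank_fintype_fun_eq_card, Fintype.card_fin]

/-- bases of `V` and its orthogonal complement out of dual bases -/
theorem exists_perp_bases {k l : ℕ} (hl : 1 ≤ l) {V : Submodule ℝ ℝ[X]}
    (hV : V ≤ degreeLT ℝ (k + l)) (b : Basis (Fin k) ℝ V) :
    ∃ e q : Fin k ⊕ Fin l → ℝ[X], (∀ i, e i ∈ degreeLT ℝ (k + l)) ∧
      (∀ i, q i ∈ degreeLT ℝ (k + l)) ∧ (∀ j, e (Sum.inl j) = b j) ∧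
      (∀ i j, (Bp (k + l) (e j) (q i)).coeff 0 = if j = i then 1 else 0) ∧
      finrank ℝ (perp (k + l) V) = l ∧
      ∃ B3 : Basis (Fin l) ℝ (perp (k + l) V), ∀ s, (B3 s : ℝ[X]) = q (Sum.inr s) := by
  have hn : 1 ≤ k + l := by omega
  have hMfd : FiniteDimensional ℝ (degreeLT ℝ (k + l)) :=
    FiniteDimensional.of_finrank_pos (by rw [finrank_degreeLT]; omega)
  let eV : V.comap (degreeLT ℝ (k + l)).subtype ≃ₗ[ℝ] V := Submodule.comapSubtypeEquivOfLe hV
  let b1 : Basis (Fin k) ℝ (V.comap (degreeLT ℝ (k + l)).subtype) := b.map eV.symm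
  have hb1 : ∀ j, ((b1 j : degreeLT ℝ (k + l)) : ℝ[X]) = b j := by
    intro j
    have h1 : eV (b1 j) = b j := by simp [b1]
    have h2 : ((eV (b1 j) : V) : ℝ[X]) = ((b1 j : degreeLT ℝ (k + l)) : ℝ[X]) := rfl
    rw [← h2, h1]
  obtain ⟨e, q, he, hq, hfinP, B2, hB2⟩ := exists_dual_bases (Bf_nondeg hn) (Bf_refl hn) hl
    (finrank_degreeLT (k + l)) (V.comap (degreeLT ℝ (k + l)).subtype) b1
  let eP : (Bf (k + l)).orthogonal (V.comap (degreeLT ℝ (k + l)).subtype) ≃ₗ[ℝ]
      perp (k + l) V := Submodule.equivMapOfInjective (degreeLT ℝ (k + l)).subtype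
    (Submodule.injective_subtype _) ((Bf (k + l)).orthogonal (V.comap (degreeLT ℝ (k + l)).subtype))
  refine ⟨fun i => (e i : ℝ[X]), fun i => (q i : ℝ[X]), fun i => (e i).2, fun i => (q i).2,
    fun j => by simp only [he, hb1], fun i j => by rw [← hq i j, Bf_apply], ?_, B2.map eP, ?_⟩
  · rw [← eP.finrank_eq, hfinP]
  · intro s
    have h1 : ((B2.map eP s : perp (k + l) V) : ℝ[X])
        = ((B2 s : degreeLT ℝ (k + l)) : ℝ[X]) := by
      rw [Basis.map_apply]
      rfl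
    show ((B2.map eP s : perp (k + l) V) : ℝ[X]) = (q (Sum.inr s) : ℝ[X])
    exact h1.trans (by rw [hB2])

theorem perp_wr {k l : ℕ} (hl : 1 ≤ l) {V : Submodule ℝ ℝ[X]}
    (hV : V ≤ degreeLT ℝ (k + l)) (b : Basis (Fin k) ℝ V) :
    finrank ℝ (perp (k + l) V) = l ∧ ∃ b' : Basis (Fin l) ℝ (perp (k + l) V), ∃ c : ℝ, c ≠ 0 ∧
      wr (fun j => (b' j : ℝ[X])) = C c * wr (fun j => (b j : ℝ[X])) := by
  classical
  obtain ⟨e, q, heM, hqM, he, hq, hfinPerp, B3, hB3⟩ := exists_perp_bases hl hV b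
  refine ⟨hfinPerp, B3, ?_⟩
  have hn : 1 ≤ k + l := by omega
  -- the matrices
  let idx : Fin k ⊕ Fin l → ℕ := Sum.elim (fun i => (i : ℕ)) (fun i => k + (i : ℕ))
  let Φ : Matrix (Fin k ⊕ Fin l) (Fin k ⊕ Fin l) ℝ[X] :=
    Matrix.of fun r i => derivative^[idx i] (e r)
  let Ψ : Matrix (Fin k ⊕ Fin l) (Fin k ⊕ Fin l) ℝ[X] :=
    Matrix.of fun i s => C ((-1 : ℝ) ^ (idx i)) * derivative^[k + l - 1 - idx i] (q s)
  have hΦΨ : Φ * Ψ = 1 := by
    ext1 r s
    rw [Matrix.mul_apply]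
    have h1 : ∑ i, Φ r i * Ψ i s = Bp (k + l) (e r) (q s) := by
      rw [Fintype.sum_sum_type]
      simp only [Φ, Ψ, Matrix.of_apply, idx, Sum.elim_inl, Sum.elim_inr]
      rw [Bp, Finset.sum_range_add, Finset.sum_range, Finset.sum_range]
      congr 1
      · refine Finset.sum_congr rfl fun i _ => ?_
        ring
      · refine Finset.sum_congr rfl fun i _ => ?_
        ring
    rw [h1, Bp_const hn (heM r) (hqM s), hq, Matrix.one_apply]
    split_ifs <;> simp
  have hunit : IsUnit Φ.det := by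
    have := congrArg Matrix.det hΦΨ
    rw [Matrix.det_mul, Matrix.det_one] at this
    exact IsUnit.of_mul_eq_one _ this
  -- blocks
  have hprod : Φ * Matrix.fromBlocks 1 Ψ.toBlocks₁₂ 0 Ψ.toBlocks₂₂ =
      Matrix.fromBlocks Φ.toBlocks₁₁ 0 Φ.toBlocks₂₁ 1 := by
    have h1 := hΦΨ
    rw [← Matrix.fromBlocks_toBlocks Φ, ← Matrix.fromBlocks_toBlocks Ψ,
      Matrix.fromBlocks_multiply, ← Matrix.fromBlocks_one, Matrix.fromBlocks_inj] at h1
    obtain ⟨-, h12, -, h22⟩ := h1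
    conv_lhs => rw [← Matrix.fromBlocks_toBlocks Φ]
    rw [Matrix.fromBlocks_multiply, h12, h22]
    simp
  have hdet := congrArg Matrix.det hprod
  rw [Matrix.det_mul, Matrix.det_fromBlocks_zero₂₁, Matrix.det_fromBlocks_zero₁₂,
    Matrix.det_one, Matrix.det_one, one_mul, mul_one] at hdet
  have hA : Φ.toBlocks₁₁.det = wr (fun j => (b j : ℝ[X])) := by
    unfold wr
    rw [← Matrix.det_transpose]
    congr 1
    ext1 i j
    simp only [Matrix.transpose_apply, Matrix.toBlocks₁₁, Matrix.of_apply, Φ, idx, Sum.elim_inl]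
    rw [he]
  have hD : ∃ c : ℝ, c ≠ 0 ∧ Ψ.toBlocks₂₂.det = C c * wr (fun j => (B3 j : ℝ[X])) := by
    have h1 : Ψ.toBlocks₂₂ = Matrix.of fun (i : Fin l) (j : Fin l) =>
        C ((-1 : ℝ) ^ (k + (i : ℕ))) *
          ((Matrix.of fun i j : Fin l => derivative^[(i : ℕ)] ((B3 j : perp (k + l) V) : ℝ[X])).submatrix
            Fin.revPerm id) i j := by
      ext1 i j
      simp only [Matrix.toBlocks₂₂, Matrix.of_apply, Ψ, idx, Sum.elim_inr, Matrix.submatrix_apply,
        id, Fin.revPerm_apply, Fin.val_rev]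
      rw [hB3]
      have e3 : k + l - 1 - (k + (i : ℕ)) = l - ((i : ℕ) + 1) := by omega
      rw [e3]
    rw [h1, Matrix.det_mul_column, Matrix.det_permute]
    refine ⟨(∏ i : Fin l, (-1 : ℝ) ^ (k + (i : ℕ))) * ((Equiv.Perm.sign (Fin.revPerm (n := l)) : ℤ) : ℝ),
      ?_, ?_⟩
    · apply mul_ne_zero
      · rw [Finset.prod_ne_zero_iff]
        intro i _
        exact pow_ne_zero _ (by norm_num)
      · rcases Int.units_eq_one_or (Equiv.Perm.sign (Fin.revPerm (n := l))) with h | h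
        · rw [h]; norm_num
        · rw [h]; norm_num
    · rw [C_mul, map_prod]
      unfold wr
      rw [mul_assoc]
      congr 2
  obtain ⟨c1, hc1, hD⟩ := hD
  obtain ⟨c2, hc2, hu⟩ := Polynomial.isUnit_iff.1 hunit
  have hc2' : c2 ≠ 0 := hc2.ne_zero
  rw [hA, hD, ← hu] at hdet
  refine ⟨(c2 * c1)⁻¹, inv_ne_zero (mul_ne_zero hc2' hc1), ?_⟩
  rw [← hdet, ← mul_assoc, ← mul_assoc, ← C_mul, ← C_mul, mul_assoc (c2 * c1)⁻¹ c2 c1,
    inv_mul_cancel₀ (mul_ne_zero hc2' hc1), C_1, one_mul]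

/-- the orthogonal complement maps fibres of the Wronski map to fibres of the Wronski map -/
theorem perp_mem {k l : ℕ} (hl : 1 ≤ l) {f : ℝ[X]} {V : Submodule ℝ ℝ[X]}
    (hV : V ∈ realFibre k (k + l) f) : perp (k + l) V ∈ realFibre l (k + l) f := by
  obtain ⟨h1, h2, b, c, hc, hb⟩ := hV
  obtain ⟨h3, b', c', hc', hb'⟩ := perp_wr hl h1 b
  refine ⟨perp_le _ _, h3, b', c' * c, mul_ne_zero hc' hc, ?_⟩
  rw [hb', hb, ← mul_assoc, ← C_mul]

theorem fibre_dual {k l : ℕ} (hk : 1 ≤ k) (hl : 1 ≤ l) (f : ℝ[X]) :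
    realFibre l (k + l) f = perp (k + l) '' realFibre k (k + l) f ∧
      Set.InjOn (perp (k + l)) (realFibre k (k + l) f) := by
  have hn : 1 ≤ k + l := by omega
  constructor
  · apply Set.Subset.antisymm
    · intro U hU
      refine ⟨perp (k + l) U, ?_, perp_perp hn hU.1⟩
      have hU' : U ∈ realFibre l (l + k) f := by rw [add_comm]; exact hU
      have := perp_mem hk hU'
      rw [add_comm l k] at this
      exact this
    · rintro U ⟨V, hV, rfl⟩
      exact perp_mem hl hV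
  · intro V hV V' hV' h
    rw [← perp_perp hn hV.1, h, perp_perp hn hV'.1]

theorem Sharp.dual {k l : ℕ} (hk : 1 ≤ k) (hl : 1 ≤ l) (h : Sharp k (k + l))
    (hs : sigma k (k + l) = sigma l (k + l)) : Sharp l (k + l) := by
  obtain ⟨f, ⟨f1, f2, f3, f4⟩, hfin, hcard⟩ := h
  obtain ⟨g1, g2⟩ := fibre_dual hk hl f
  have e1 : k + l - k = l := by omega
  have e2 : k + l - l = k := by omega
  rw [e1] at f2 f3
  refine ⟨f, ⟨f1, ?_, ?_, f4⟩, ?_, ?_⟩
  · rw [e2, mul_comm]; exact f2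
  · rw [e2, mul_comm]; exact f3
  · rw [g1]; exact hfin.image _
  · rw [g1, g2.ncard_image, hcard, hs]

end Pool.Agent.H93W
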