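import Mathlib
import Pool.Agent.H93W.Bridge

/-!
# Sharpness for `k = 2`
-/

set_option autoImplicit false

namespace Pool.Agent.H93W

open Finset Polynomial

lemma sigma_two (M : ℕ) (hM : 1 ≤ M) : sigma 2 (2 * M + 3) = (catalan M : ℚ) := by
  have hodd : ¬ Even (2 * M + 3) := by
    rw [Nat.not_even_iff_odd]; exact ⟨M + 1, by ring⟩
  unfold sigma
  rw [if_neg hodd, if_pos (by omega)]
  unfold sigmaFormula
  have e1 : 2 * M + 3 - 2 * 2 + 1 = 2 * M := by omega
  have e2 : 2 * M + 3 - 2 - 1 = 2 * M := by omega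
  have e3 : 2 * (2 * M + 3 - 2) / 2 = 2 * M + 1 := by omega
  have e4 : 2 * M + 3 - 2 * 2 + 2 * 1 = 2 * M + 1 := by omega
  have e5 : (2 * M + 3 - 2 * 2 + 2 * 1 - 1) / 2 = M := by omega
  have e6 : (2 * M + 3 - 2 * 2 + 2 * 2 - 1) / 2 = M + 1 := by omega
  have p1 : (∏ i ∈ Finset.Icc 1 2, (((2 * M + 3 - 2 * 2 + 2 * i - 1) / 2).factorial : ℚ))
      = (M.factorial : ℚ) * ((M + 1).factorial : ℚ) := by
    rw [show Finset.Icc 1 2 = {1, 2} from rfl, Finset.prod_pair (by norm_num), e5, e6]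
  rw [p1, e1, e2, e3]
  simp only [show (2 : ℕ) - 1 = 1 from rfl, Finset.Icc_self, Finset.prod_singleton, e4]
  have h1 := succ_mul_catalan_eq_centralBinom M
  rw [Nat.centralBinom_eq_two_mul_choose] at h1
  have h2 := Nat.choose_mul_factorial_mul_factorial (show M ≤ 2 * M by omega)
  have e7 : 2 * M - M = M := by omega
  rw [e7, ← h1] at h2
  have h3 : ((M : ℚ) + 1) * (catalan M : ℚ) * (M.factorial : ℚ) * (M.factorial : ℚ)
      = ((2 * M).factorial : ℚ) := by exact_mod_cast h2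
  have f1 : ((2 * M + 1).factorial : ℚ) ≠ 0 := by exact_mod_cast Nat.factorial_ne_zero _
  have f2 : (M.factorial : ℚ) ≠ 0 := by exact_mod_cast Nat.factorial_ne_zero _
  have f3 : ((M + 1).factorial : ℚ) = ((M : ℚ) + 1) * (M.factorial : ℚ) := by
    rw [Nat.factorial_succ]; push_cast; ring
  have f4 : ((M : ℚ) + 1) ≠ 0 := by positivity
  rw [f3, ← h3]
  field_simp
  simp

lemma natDegree_of_good {f : ℝ[X]} {D : ℕ} (h : Good f.coeff D) : f.natDegree = D := by
  apply le_antisymm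
  · rw [natDegree_le_iff_coeff_eq_zero]
    intro s hs
    exact h.zero s hs
  · exact le_natDegree_of_ne_zero h.pos.ne'

/-- the polynomial of stage `2 M` for `n = 2 M + 3` -/
theorem two_main (M : ℕ) : ∃ f : ℝ[X], f.Separable ∧ Good f.coeff (4 * M + 1) ∧
    (realFibre 2 (2 * M + 3) f).Finite ∧ (realFibre 2 (2 * M + 3) f).ncard = catalan M := by
  obtain ⟨f, hf⟩ := exists_stage (2 * M + 3) (2 * M)
  have hg : Good f.coeff (4 * M + 1) := by
    have := hf.good
    rwa [show 2 * (2 * M) + 1 = 4 * M + 1 by ring] at this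
  let a : Fin (2 * M + 3) := ⟨2 * M, by omega⟩
  let b : Fin (2 * M + 3) := ⟨2 * M + 2, by omega⟩
  have hab : a < b := by rw [Fin.lt_def]; simp only [a, b]; omega
  have hsum : (a : ℕ) + b = 2 * (2 * M) + 2 := by simp only [a, b]; omega
  have huniq : ∀ a' b' : Fin (2 * M + 3), a' < b' → (a' : ℕ) + b' = 4 * M + 1 + 1 →
      a' = a ∧ b' = b := by
    intro a' b' h1 h2
    rw [Fin.lt_def] at h1
    have := b'.2
    constructor
    · apply Fin.ext; simp only [a]; omega
    · apply Fin.ext; simp only [b]; omega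
  obtain ⟨h1, h2⟩ := realFibre_two hg hab huniq
  have hfin := hf.fin a b hab hsum
  have hcard := hf.card a b hab hsum ⟨M, by simp only [a]; omega⟩
  refine ⟨f, hf.sep, hg, ?_, ?_⟩
  · rw [h1]; exact hfin.image _
  · rw [h1, h2.ncard_image]
    have e1 : (a : ℕ) / 2 = M := by simp only [a]; omega
    have e2 : (b : ℕ) / 2 = M + 1 := by simp only [b]; omega
    rw [e1, e2, bal_catalan] at hcard
    exact_mod_cast hcard

theorem sharp_two (n : ℕ) (hn : Odd n) (h5 : 5 ≤ n) : Sharp 2 n := by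
  obtain ⟨M, hM⟩ : ∃ M, n = 2 * M + 3 := by
    obtain ⟨r, hr⟩ := hn
    exact ⟨r - 1, by omega⟩
  subst hM
  have hM1 : 1 ≤ M := by omega
  obtain ⟨f, hsep, hg, hfin, hcard⟩ := two_main M
  have hdeg := natDegree_of_good hg
  refine ⟨f, ⟨?_, ?_, ?_, ?_⟩, hfin, ?_⟩
  · exact hsep.ne_zero
  · rw [hdeg]; omega
  · rw [hdeg]; omega
  · exact nodup_roots hsep.map
  · rw [hcard, sigma_two M hM1]

end Pool.Agent.H93W
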