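import Mathlib
import Pool.Agent.H93W.Two
import Pool.Agent.H93W.Dual

/-!
# Sharpness for `min (k, n - k) = 2`
-/

set_option autoImplicit false

namespace Pool.Agent.H93W

open Polynomial

lemma sigma_symm (k l : ℕ) : sigma k (k + l) = sigma l (k + l) := by
  unfold sigma
  have e1 : k + l - k = l := by omega
  have e2 : k + l - l = k := by omega
  rw [e1, e2]
  split_ifs with h1 h2 h3 h3
  · rfl
  · have : k = l := by omega
    rw [this]
  · rfl
  · rfl
  · omega

theorem Sharp.symm {k l : ℕ} (hk : 1 ≤ k) (hl : 1 ≤ l) (h : Sharp k (k + l)) :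
    Sharp l (k + l) :=
  h.dual hk hl (sigma_symm k l)

theorem sharp_min_two (k n : ℕ) (hn : Odd n) (hk : 2 ≤ k) (hkn : k + 2 ≤ n)
    (h : k = 2 ∨ n - k = 2) : Sharp k n := by
  have h5 : 5 ≤ n := by
    obtain ⟨r, hr⟩ := hn
    omega
  have h2 : Sharp 2 n := sharp_two n hn h5
  rcases h with h | h
  · rw [h]; exact h2
  · obtain ⟨l, rfl⟩ : ∃ l, n = 2 + l := ⟨n - 2, by omega⟩
    have hkl : k = l := by omega
    rw [hkl]
    exact h2.symm (by norm_num) (by omega)

end Pool.Agent.H93W
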